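import Mathlib

set_option linter.unusedSectionVars false
set_option backward.defeqAttrib.useBackward true
set_option backward.isDefEq.respectTransparency false

open CategoryTheory Limits Pretriangulated Triangulated ZeroObject

namespace Pool.Agent.TauNTilting

section Abstract

variable {C : Type*} [Category* C] [HasZeroObject C] [HasShift C ℤ]
  [Preadditive C] [∀ (n : ℤ), (shiftFunctor C n).Additive] [Pretriangulated C]

/-- All morphisms from `X` to `Y` vanish. -/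
def HZ (X Y : C) : Prop := ∀ f : X ⟶ Y, f = 0

lemma HZ.of_iso {X X' Y Y' : C} (h : HZ X Y) (e : X ≅ X') (e' : Y ≅ Y') : HZ X' Y' := by
  intro f
  have := h (e.hom ≫ f ≫ e'.inv)
  rw [← cancel_epi e.hom, ← cancel_mono e'.inv]
  simpa using this

lemma HZ.shift {X Y : C} (h : HZ X Y) (a : ℤ) : HZ (X⟦a⟧) (Y⟦a⟧) := by
  intro f
  obtain ⟨g, rfl⟩ := (shiftFunctor C a).map_surjective f
  rw [h g, Functor.map_zero]

lemma HZ.of_shift {X Y : C} (a : ℤ) (h : HZ (X⟦a⟧) (Y⟦a⟧)) : HZ X Y := by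
  intro f
  apply (shiftFunctor C a).map_injective
  rw [Functor.map_zero]
  exact h _

lemma HZ.shift_add_iff {X Y : C} (a b c : ℤ) (hc : a + b = c) :
    HZ X (Y⟦c⟧) ↔ HZ X (Y⟦a⟧⟦b⟧) :=
  ⟨fun h ↦ h.of_iso (Iso.refl _) ((shiftFunctorAdd' C a b c hc).app Y),
    fun h ↦ h.of_iso (Iso.refl _) ((shiftFunctorAdd' C a b c hc).app Y).symm⟩

lemma HZ.shift_iff {X Y : C} (a b c : ℤ) (hc : b + a = c) :
    HZ (X⟦a⟧) (Y⟦c⟧) ↔ HZ X (Y⟦b⟧) := by
  constructor
  · intro h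
    exact HZ.of_shift a ((HZ.shift_add_iff b a c hc).1 h)
  · intro h
    exact (HZ.shift_add_iff b a c hc).2 (h.shift a)

lemma HZ.shift_zero_iff {X Y : C} : HZ X (Y⟦(0 : ℤ)⟧) ↔ HZ X Y :=
  ⟨fun h ↦ h.of_iso (Iso.refl _) ((shiftFunctorZero C ℤ).app Y),
    fun h ↦ h.of_iso (Iso.refl _) ((shiftFunctorZero C ℤ).app Y).symm⟩

lemma HZ.obj₂ {X : C} {T : Triangle C} (hT : T ∈ distTriang C) (h₁ : HZ X T.obj₁)
    (h₃ : HZ X T.obj₃) : HZ X T.obj₂ := by
  intro f
  obtain ⟨g, hg⟩ := Triangle.coyoneda_exact₂ T hT f (h₃ _)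
  rw [hg, h₁ g, zero_comp]

lemma HZ.obj₃ {X : C} {T : Triangle C} (hT : T ∈ distTriang C) (h₂ : HZ X T.obj₂)
    (h₁ : HZ X (T.obj₁⟦(1 : ℤ)⟧)) : HZ X T.obj₃ := by
  intro f
  obtain ⟨g, hg⟩ := Triangle.coyoneda_exact₃ T hT f (h₁ _)
  rw [hg, h₂ g, zero_comp]

lemma HZ.obj₂_left {Y : C} {T : Triangle C} (hT : T ∈ distTriang C) (h₁ : HZ T.obj₁ Y)
    (h₃ : HZ T.obj₃ Y) : HZ T.obj₂ Y := by
  intro f
  obtain ⟨g, hg⟩ := Triangle.yoneda_exact₂ T hT f (h₁ _)
  rw [hg, h₃ g, comp_zero]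

lemma HZ.obj₂_shift {X : C} {T : Triangle C} (hT : T ∈ distTriang C) (i : ℤ)
    (h₁ : HZ X (T.obj₁⟦i⟧)) (h₃ : HZ X (T.obj₃⟦i⟧)) : HZ X (T.obj₂⟦i⟧) :=
  HZ.obj₂ (Triangle.shift_distinguished T hT i) h₁ h₃

lemma HZ.obj₃_shift {X : C} {T : Triangle C} (hT : T ∈ distTriang C) (i j : ℤ) (hj : i + 1 = j)
    (h₂ : HZ X (T.obj₂⟦i⟧)) (h₁ : HZ X (T.obj₁⟦j⟧)) : HZ X (T.obj₃⟦i⟧) :=
  HZ.obj₃ (Triangle.shift_distinguished T hT i) h₂ ((HZ.shift_add_iff i 1 j hj).1 h₁)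

/-- `U P` : objects `X` with `Hom(P, X⟦i⟧) = 0` for all `i > 0`. -/
def U (P : C) : ObjectProperty C := fun X ↦ ∀ i : ℤ, 0 < i → HZ P (X⟦i⟧)

/-- left perpendicular of `U P ⟦>0⟧`. -/
def LU (P : C) : ObjectProperty C := fun Z ↦ ∀ X, U P X → ∀ i : ℤ, 0 < i → HZ Z (X⟦i⟧)

/-- `U P ⟦1⟧` intersected with `t ≤ -1` -/
def BU (t : TStructure C) (P : C) : ObjectProperty C := fun Z ↦
  t.IsLE Z (-1) ∧ ∀ i : ℤ, 0 ≤ i → HZ P (Z⟦i⟧)

variable (t : TStructure C) (P : C)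

lemma LU_ext : ObjectProperty.extensionProduct (LU P) (LU P) ≤ LU P := by
  rintro Z ⟨A, B, f, g, h, hT, hA, hB⟩ X hX i hi
  exact HZ.obj₂_left hT (hA X hX i hi) (hB X hX i hi)


lemma BU_ext : ObjectProperty.extensionProduct (BU t P) (BU t P) ≤ BU t P := by
  rintro Z ⟨A, B, f, g, h, hT, hA, hB⟩
  refine ⟨t.isLE₂ _ hT _ hA.1 hB.1, fun i hi ↦ ?_⟩
  exact HZ.obj₂_shift hT i (hA.2 i hi) (hB.2 i hi)

lemma LU_BU_hom_zero {A B : C} (hA : LU P A) (hB : BU t P B) : HZ A (B⟦(1 : ℤ)⟧) := by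
  have h := hA (B⟦(-1 : ℤ)⟧) (fun i hi ↦ ?_) 2 (by norm_num)
  · exact (HZ.shift_add_iff (-1) 2 1 (by norm_num)).2 h
  · exact (HZ.shift_add_iff (-1) i (i - 1) (by lia)).1 (hB.2 (i - 1) (by lia))

lemma BU_LU_swap [IsTriangulated C] :
    ObjectProperty.extensionProduct (BU t P) (LU P) ≤
      ObjectProperty.extensionProduct (LU P) (BU t P) := by
  rintro Z ⟨B, A, f, g, h, hT, hB, hA⟩
  obtain rfl : h = 0 := LU_BU_hom_zero t P hA hB h
  obtain ⟨e, he₁, he₂⟩ := exists_iso_binaryBiproduct_of_distTriang _ hT rfl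
  have hT' := binaryBiproductTriangle_distinguished A B
  refine ⟨A, B, biprod.inl ≫ (biprod.braiding A B).hom ≫ e.inv,
    e.hom ≫ (biprod.braiding A B).inv ≫ biprod.snd, 0, ?_, hA, hB⟩
  refine isomorphic_distinguished _ hT' _ ?_
  refine Triangle.isoMk _ _ (Iso.refl _) (e ≪≫ (biprod.braiding A B).symm) (Iso.refl _) ?_ ?_ ?_
  · dsimp
    simp
  · dsimp
    simp
  · dsimp
    simp

lemma LU_BU_ext [IsTriangulated C] :
    ObjectProperty.extensionProduct (ObjectProperty.extensionProduct (LU P) (BU t P))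
      (ObjectProperty.extensionProduct (LU P) (BU t P)) ≤
      ObjectProperty.extensionProduct (LU P) (BU t P) := by
  rw [ObjectProperty.extensionProduct_assoc,
    ← ObjectProperty.extensionProduct_assoc (BU t P) (LU P) (BU t P)]
  refine (ObjectProperty.monotone_extensionProduct_right _
    (ObjectProperty.monotone_extensionProduct_left _ (BU_LU_swap t P))).trans ?_
  rw [ObjectProperty.extensionProduct_assoc (LU P) (BU t P) (BU t P),
    ← ObjectProperty.extensionProduct_assoc (LU P) (LU P)]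
  exact (ObjectProperty.monotone_extensionProduct_left _ (LU_ext P)).trans
    (ObjectProperty.monotone_extensionProduct_right _ (BU_ext t P))

/-- The triangulated subcategory used in the generation argument. -/
def SS : ObjectProperty C := fun Z ↦
  ∀ m : ℤ, ObjectProperty.extensionProduct (LU P) (BU t P) (Z⟦m⟧)


instance LU_containsZero : (LU P).ContainsZero where
  exists_zero := ⟨0, isZero_zero C, fun _ _ _ _ f ↦ (isZero_zero C).eq_of_src _ _⟩

instance BU_containsZero : (BU t P).ContainsZero where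
  exists_zero := ⟨0, isZero_zero C, inferInstance,
    fun _ _ f ↦ ((shiftFunctor C _).map_isZero (isZero_zero C)).eq_of_tgt _ _⟩

instance SS_iso : (SS t P).IsClosedUnderIsomorphisms where
  of_iso e h m := ObjectProperty.prop_of_iso _ ((shiftFunctor C m).mapIso e) (h m)

instance SS_triang [IsTriangulated C] : (SS t P).IsTriangulated where
  exists_zero := ⟨0, isZero_zero C, fun m ↦
    ObjectProperty.le_extensionProduct_left (P := LU P) (Q := BU t P) _
      (fun _ _ _ _ f ↦ ((shiftFunctor C m).map_isZero (isZero_zero C)).eq_of_src _ _)⟩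
  isStableUnderShiftBy a := ⟨fun X hX m ↦
    ObjectProperty.prop_of_iso _ ((shiftFunctorAdd' C a m (a + m) rfl).app X) (hX (a + m))⟩
  toIsTriangulatedClosed₂ := .mk' (fun T hT h₁ h₃ m ↦
    LU_BU_ext t P _ ⟨_, _, _, _, _, Triangle.shift_distinguished T hT m, h₁ m, h₃ m⟩)

/-- `Y` is a direct summand of a finite sum of copies of `P`. -/
def AddData (P Y : C) : Prop :=
  ∃ (r : ℕ) (a : Fin r → (Y ⟶ P)) (b : Fin r → (P ⟶ Y)), ∑ k, a k ≫ b k = 𝟙 Y

lemma AddData.hz_left {P Y X : C} (h : AddData P Y) (hX : HZ P X) : HZ Y X := by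
  obtain ⟨r, a, b, hab⟩ := h
  intro f
  rw [← Category.id_comp f, ← hab, Preadditive.sum_comp]
  refine Finset.sum_eq_zero fun k _ ↦ ?_
  rw [Category.assoc, hX (b k ≫ f), comp_zero]

lemma AddData.hz_right {P Y X : C} (h : AddData P Y) (i : ℤ) (hX : HZ X (P⟦i⟧)) :
    HZ X (Y⟦i⟧) := by
  obtain ⟨r, a, b, hab⟩ := h
  intro f
  rw [← Category.comp_id f, ← (shiftFunctor C i).map_id, ← hab, Functor.map_sum,
    Preadditive.comp_sum]
  refine Finset.sum_eq_zero fun k _ ↦ ?_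
  rw [Functor.map_comp, ← Category.assoc, hX (f ≫ _), zero_comp]

lemma SS_of_add (h₀ : t.IsLE P 0) (hP : ∀ i : ℤ, 0 < i → HZ P (P⟦i⟧)) {Y : C}
    (hY : AddData P Y) : SS t P Y := by
  intro m
  by_cases hm : m ≤ 0
  · refine ObjectProperty.le_extensionProduct_left (P := LU P) (Q := BU t P) _ ?_
    intro X hX i hi
    exact (HZ.shift_iff m (i - m) i (by lia)).2 (hY.hz_left (hX (i - m) (by lia)))
  · refine ObjectProperty.le_extensionProduct_right (P := LU P) (Q := BU t P) _ ⟨?_, ?_⟩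
    · have hY0 : t.IsLE Y 0 := by
        rw [t.isLE_iff_orthogonal 0 1 (by norm_num)]
        intro Z f hZ
        exact hY.hz_left (fun g ↦ t.zero g 0 1) f
      have := t.isLE_shift Y 0 m (-m) (by lia)
      exact t.isLE_of_le _ (-m) (-1) (by lia)
    · intro i hi
      exact (HZ.shift_add_iff m i (m + i) rfl).1 (hY.hz_right _ (hP _ (by lia)))

/-- The generation argument: an object `L` with `t.IsLE L 0`, `Hom(L, t ≤ -1) = 0` lying in the
triangulated subcategory generated by `P` is left orthogonal to `U P ⟦>0⟧`. -/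
lemma LU_of_SS {L : C} (hL : ∀ B : C, t.IsLE B (-1) → HZ L B) (h : SS t P L) : LU P L := by
  obtain ⟨A, B, f, g, k, hT, hA, hB⟩ := h 0
  have hg : g = 0 := by
    refine HZ.of_iso (hL B hB.1) ((shiftFunctorZero C ℤ).app L).symm (Iso.refl _) g
  subst hg
  obtain ⟨s, hs⟩ := Triangle.coyoneda_exact₂ _ hT (𝟙 _) (by simp)
  dsimp at s hs
  intro X hX i hi
  have : HZ (L⟦(0 : ℤ)⟧) (X⟦i⟧) := by
    intro w
    rw [← Category.id_comp w, hs, Category.assoc, hA X hX i hi (f ≫ w), comp_zero]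
  exact this.of_iso ((shiftFunctorZero C ℤ).app L) (Iso.refl _)

end Abstract

end Pool.Agent.TauNTilting
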