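import Mathlib
import Pool.Agent.Lib.TauNTilting.Orthogonal

set_option linter.unusedSectionVars false
set_option backward.defeqAttrib.useBackward true
set_option backward.isDefEq.respectTransparency false

open CategoryTheory Limits Pretriangulated Triangulated ZeroObject

universe w u

namespace Pool.Agent.TauNTilting

section Derived

variable (R : Type u) {Λ : Type u} [CommRing R] [Ring Λ] [Algebra R Λ]
  [HasDerivedCategory.{w} (ModuleCat.{u} Λ)]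

open DerivedCategory ModuleCat.Algebra

/-- homology in degree `j` -/
noncomputable abbrev HH (j : ℤ) (X : DerivedCategory (ModuleCat.{u} Λ)) : ModuleCat.{u} Λ :=
  (homologyFunctor (ModuleCat.{u} Λ) j).obj X

/-- all homology modules are noetherian -/
def FGc (X : DerivedCategory (ModuleCat.{u} Λ)) : Prop := ∀ j : ℤ, IsNoetherian Λ (HH j X)

lemma noeth_of_exact {S : ShortComplex (ModuleCat.{u} Λ)} (hS : S.Exact)
    (h₁ : IsNoetherian Λ S.X₁) (h₃ : IsNoetherian Λ S.X₃) : IsNoetherian Λ S.X₂ :=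
  isNoetherian_of_range_eq_ker S.f.hom S.g.hom hS.moduleCat_range_eq_ker

lemma noeth_of_iso {M N : ModuleCat.{u} Λ} (e : M ≅ N) (h : IsNoetherian Λ M) :
    IsNoetherian Λ N :=
  isNoetherian_of_linearEquiv e.toLinearEquiv

lemma noeth_of_isZero {M : ModuleCat.{u} Λ} (h : IsZero M) : IsNoetherian Λ M := by
  have := ModuleCat.subsingleton_of_isZero h
  infer_instance

variable {T : Triangle (DerivedCategory (ModuleCat.{u} Λ))} (hT : T ∈ distTriang _)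

include hT in
lemma FGc.obj₂ (h₁ : FGc T.obj₁) (h₃ : FGc T.obj₃) : FGc T.obj₂ := fun j ↦
  noeth_of_exact (HomologySequence.exact₂ T hT j) (h₁ j) (h₃ j)

include hT in
lemma FGc.obj₃ (h₁ : FGc T.obj₁) (h₂ : FGc T.obj₂) : FGc T.obj₃ := fun j ↦
  noeth_of_exact (HomologySequence.exact₃ T hT j (j + 1) rfl) (h₂ j) (h₁ (j + 1))

include hT in
lemma FGc.obj₁ (h₂ : FGc T.obj₂) (h₃ : FGc T.obj₃) : FGc T.obj₁ := fun j ↦
  noeth_of_exact (HomologySequence.exact₁ T hT (j - 1) j (by lia)) (h₃ (j - 1)) (h₂ j)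

lemma isZero_of_exact {S : ShortComplex (ModuleCat.{u} Λ)} (hS : S.Exact)
    (h₁ : IsZero S.X₁) (h₃ : IsZero S.X₃) : IsZero S.X₂ :=
  hS.isZero_X₂ (h₁.eq_of_src _ _) (h₃.eq_of_tgt _ _)

include hT in
lemma HH_zero₂ (j : ℤ) (h₁ : IsZero (HH j T.obj₁)) (h₃ : IsZero (HH j T.obj₃)) :
    IsZero (HH j T.obj₂) :=
  isZero_of_exact (HomologySequence.exact₂ T hT j) h₁ h₃

include hT in
lemma HH_zero₃ (j j' : ℤ) (hj : j + 1 = j') (h₂ : IsZero (HH j T.obj₂))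
    (h₁ : IsZero (HH j' T.obj₁)) : IsZero (HH j T.obj₃) :=
  isZero_of_exact (HomologySequence.exact₃ T hT j j' hj) h₂ h₁

include hT in
lemma HH_zero₁ (j j' : ℤ) (hj : j + 1 = j') (h₃ : IsZero (HH j T.obj₃))
    (h₂ : IsZero (HH j' T.obj₂)) : IsZero (HH j' T.obj₁) :=
  isZero_of_exact (HomologySequence.exact₁ T hT j j' hj) h₃ h₂

/-- homology and shifts -/
noncomputable def HHshift (X : DerivedCategory (ModuleCat.{u} Λ)) (a j k : ℤ) (h : a + j = k) :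
    HH j (X⟦a⟧) ≅ HH k X :=
  ((homologyFunctor (ModuleCat.{u} Λ) 0).shiftIso a j k h).app X

lemma FGc.shift {X : DerivedCategory (ModuleCat.{u} Λ)} (h : FGc X) (a : ℤ) : FGc (X⟦a⟧) :=
  fun j ↦ noeth_of_iso (HHshift X a j (a + j) rfl).symm (h _)

lemma FGc.of_iso {X Y : DerivedCategory (ModuleCat.{u} Λ)} (e : X ≅ Y) (h : FGc X) : FGc Y :=
  fun j ↦ noeth_of_iso ((homologyFunctor _ j).mapIso e) (h j)

/-- The properties of the object `P` used in the argument. -/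
structure PData (n : ℕ) (P : DerivedCategory (ModuleCat.{u} Λ)) : Prop where
  le : P.IsLE 0
  hz : ∀ Y : DerivedCategory (ModuleCat.{u} Λ), Y.IsLE (-(n : ℤ) - 1) → HZ P Y
  presilt : ∀ i : ℤ, 0 < i → HZ P (P⟦i⟧)
  gap : ∀ j : ℤ, -(n : ℤ) < j → j < 0 → IsZero (HH j P)
  fg : FGc P
  U_le : ∀ X : DerivedCategory (ModuleCat.{u} Λ), U P X → X.IsLE 0
  fin : ∀ X : DerivedCategory (ModuleCat.{u} Λ), FGc X → IsNoetherian R (P ⟶ X)


variable {R} in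
lemma cone_step {n : ℕ} {P : DerivedCategory (ModuleCat.{u} Λ)} (hP : PData R n P) (ℓ : ℤ)
    (hℓ : 0 < ℓ) (X : DerivedCategory (ModuleCat.{u} Λ)) (hfg : FGc X)
    (hX : ∀ i, ℓ < i → HZ P (X⟦i⟧)) (f : P ⟶ X⟦ℓ⟧) :
    ∃ (X' : DerivedCategory (ModuleCat.{u} Λ)) (φ : X ⟶ X'), f ≫ φ⟦ℓ⟧' = 0 ∧
      (∀ g : P ⟶ X'⟦ℓ⟧, ∃ g' : P ⟶ X⟦ℓ⟧, g' ≫ φ⟦ℓ⟧' = g) ∧
      (∀ i, ℓ < i → HZ P (X'⟦i⟧)) ∧ FGc X' ∧
      (∀ j, IsZero (HH j X) → IsZero (HH (j + 1 - ℓ) P) → IsZero (HH j X')) ∧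
      (∀ Y, U P Y → ∀ g : X ⟶ Y, ∃ g' : X' ⟶ Y, φ ≫ g' = g) := by
  obtain ⟨X', φ, δ, hT⟩ := distinguished_cocone_triangle
    (f⟦-ℓ⟧' ≫ (shiftFunctorCompIsoId _ ℓ (-ℓ) (by simp)).hom.app X)
  refine ⟨X', φ, ?_, ?_, ?_, ?_, ?_, ?_⟩
  · have h0 := comp_distTriang_mor_zero₁₂ _ hT
    dsimp at h0
    apply (shiftFunctor _ (-ℓ)).map_injective
    rw [Functor.map_zero, ← cancel_mono ((shiftFunctorCompIsoId _ ℓ (-ℓ) (by simp)).hom.app X'),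
      zero_comp, Functor.map_comp, Category.assoc]
    have := (shiftFunctorCompIsoId (DerivedCategory (ModuleCat.{u} Λ)) ℓ (-ℓ)
      (by simp)).hom.naturality φ
    dsimp at this
    rw [this, ← Category.assoc]
    exact h0
  · intro g
    have hT' := Triangle.shift_distinguished _ hT ℓ
    have hz' : HZ P ((P⟦-ℓ⟧)⟦ℓ⟧⟦(1 : ℤ)⟧) := by
      refine (HZ.shift_add_iff ℓ 1 (ℓ + 1) (by lia)).1 ?_
      exact (HZ.shift_add_iff (-ℓ) (ℓ + 1) 1 (by lia)).1 (hP.presilt 1 one_pos)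
    obtain ⟨g', hg'⟩ := Triangle.coyoneda_exact₃ _ hT' g (hz' _)
    refine ⟨ℓ.negOnePow • g', ?_⟩
    rw [hg']
    simp [Triangle.shiftFunctor]
  · intro i hi
    refine HZ.obj₃_shift hT i (i + 1) rfl (hX i hi) ?_
    exact (HZ.shift_add_iff (-ℓ) (i + 1) (i + 1 - ℓ) (by lia)).1 (hP.presilt _ (by lia))
  · exact FGc.obj₃ hT (hP.fg.shift (-ℓ)) hfg
  · intro j hj hj'
    exact HH_zero₃ hT j (j + 1) rfl hj (hj'.of_iso (HHshift P (-ℓ) (j + 1) (j + 1 - ℓ) (by lia)))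
  · intro Y hY g
    have h : HZ (P⟦-ℓ⟧) Y := by
      have := (HZ.shift_iff (X := P) (Y := Y) (-ℓ) ℓ 0 (by lia)).2 (hY ℓ hℓ)
      exact HZ.shift_zero_iff.1 this
    obtain ⟨g', hg'⟩ := Triangle.yoneda_exact₂ _ hT g (h _)
    exact ⟨g', hg'.symm⟩

variable {R} in
lemma kill {n : ℕ} {P : DerivedCategory (ModuleCat.{u} Λ)} (hP : PData R n P) (ℓ : ℤ)
    (hℓ : 0 < ℓ) (X : DerivedCategory (ModuleCat.{u} Λ)) (hfg : FGc X)
    (hX : ∀ i, ℓ < i → HZ P (X⟦i⟧)) :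
    ∃ (X' : DerivedCategory (ModuleCat.{u} Λ)) (φ : X ⟶ X'),
      (∀ i, ℓ - 1 < i → HZ P (X'⟦i⟧)) ∧ FGc X' ∧
      (∀ j, IsZero (HH j X) → IsZero (HH (j + 1 - ℓ) P) → IsZero (HH j X')) ∧
      (∀ Y, U P Y → ∀ g : X ⟶ Y, ∃ g' : X' ⟶ Y, φ ≫ g' = g) := by
  have hN : IsNoetherian R (P ⟶ X⟦ℓ⟧) := hP.fin _ (hfg.shift ℓ)
  let S : Set (Submodule R (P ⟶ X⟦ℓ⟧)) := fun K ↦
    ∃ (X' : DerivedCategory (ModuleCat.{u} Λ)) (φ : X ⟶ X'),
      K = LinearMap.ker (Linear.rightComp R P (φ⟦ℓ⟧')) ∧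
      (∀ g : P ⟶ X'⟦ℓ⟧, ∃ g' : P ⟶ X⟦ℓ⟧, g' ≫ φ⟦ℓ⟧' = g) ∧
      (∀ i, ℓ < i → HZ P (X'⟦i⟧)) ∧ FGc X' ∧
      (∀ j, IsZero (HH j X) → IsZero (HH (j + 1 - ℓ) P) → IsZero (HH j X')) ∧
      (∀ Y, U P Y → ∀ g : X ⟶ Y, ∃ g' : X' ⟶ Y, φ ≫ g' = g)
  have hS : S.Nonempty := ⟨_, X, 𝟙 X, rfl, fun g ↦ ⟨g, by simp⟩, hX, hfg, fun j h _ ↦ h,
    fun Y _ g ↦ ⟨g, by simp⟩⟩
  obtain ⟨K, ⟨X', φ, hK, h1, h2, h3, h4, h5⟩, hmax⟩ :=
    (set_has_maximal_iff_noetherian.2 hN) S hS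
  refine ⟨X', φ, ?_, h3, h4, h5⟩
  intro i hi
  by_cases hi' : ℓ < i
  · exact h2 i hi'
  obtain rfl : i = ℓ := by lia
  intro f
  obtain ⟨f', hf'⟩ := h1 f
  obtain ⟨X'', ψ, g1, g2, g3, g4, g5, g6⟩ := cone_step hP i hℓ X' h3 h2 f
  by_contra hne
  refine hmax (LinearMap.ker (Linear.rightComp R P ((φ ≫ ψ)⟦i⟧'))) ?_ ?_
  · refine ⟨X'', φ ≫ ψ, rfl, ?_, g3, g4, fun j hj hj' ↦ g5 j (h4 j hj hj') hj', ?_⟩
    · intro g
      obtain ⟨g', hg'⟩ := g2 g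
      obtain ⟨g'', hg''⟩ := h1 g'
      exact ⟨g'', by rw [Functor.map_comp, ← Category.assoc, hg'', hg']⟩
    · intro Y hY g
      obtain ⟨g', hg'⟩ := h5 Y hY g
      obtain ⟨g'', hg''⟩ := g6 Y hY g'
      exact ⟨g'', by rw [Category.assoc, hg'', hg']⟩
  · rw [hK]
    refine lt_of_le_of_ne ?_ ?_
    · intro g hg
      rw [LinearMap.mem_ker, Linear.rightComp_apply] at hg ⊢
      rw [Functor.map_comp, ← Category.assoc, hg, zero_comp]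
    · intro heq
      have : f' ∈ LinearMap.ker (Linear.rightComp R P ((φ ≫ ψ)⟦i⟧')) := by
        rw [LinearMap.mem_ker, Linear.rightComp_apply, Functor.map_comp, ← Category.assoc, hf', g1]
      rw [← heq, LinearMap.mem_ker, Linear.rightComp_apply, hf'] at this
      exact hne this

variable {R} in
lemma approx {n : ℕ} {P : DerivedCategory (ModuleCat.{u} Λ)} (hP : PData R n P) (ℓ : ℕ)
    (X : DerivedCategory (ModuleCat.{u} Λ)) (hfg : FGc X)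
    (hX : ∀ i, (ℓ : ℤ) < i → HZ P (X⟦i⟧)) :
    ∃ (B : DerivedCategory (ModuleCat.{u} Λ)) (φ : X ⟶ B), U P B ∧ FGc B ∧
      (∀ j, IsZero (HH j X) → (∀ k : ℤ, 1 ≤ k → k ≤ ℓ → IsZero (HH (j + 1 - k) P)) →
        IsZero (HH j B)) ∧
      (∀ Y, U P Y → ∀ g : X ⟶ Y, ∃ g' : B ⟶ Y, φ ≫ g' = g) := by
  induction ℓ generalizing X with
  | zero => exact ⟨X, 𝟙 X, hX, hfg, fun j hj _ ↦ hj, fun Y _ g ↦ ⟨g, by simp⟩⟩
  | succ ℓ ih =>
    obtain ⟨X', φ, h1, h2, h3, h4⟩ := kill hP (ℓ + 1 : ℕ) (by lia) X hfg hX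
    obtain ⟨B, ψ, g1, g2, g3, g4⟩ := ih X' h2 (fun i hi ↦ h1 i (by push_cast; lia))
    refine ⟨B, φ ≫ ψ, g1, g2, ?_, ?_⟩
    · intro j hj hk
      refine g3 j (h3 j hj (hk _ (by push_cast; lia) (by push_cast; lia))) ?_
      intro k hk1 hk2
      exact hk k hk1 (by push_cast; lia)
    · intro Y hY g
      obtain ⟨g', hg'⟩ := h4 Y hY g
      obtain ⟨g'', hg''⟩ := g4 Y hY g'
      exact ⟨g'', by rw [Category.assoc, hg'', hg']⟩


/-- The stalk complex in degree zero. -/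
noncomputable abbrev SF (N : ModuleCat.{u} Λ) : DerivedCategory (ModuleCat.{u} Λ) :=
  (singleFunctor (ModuleCat.{u} Λ) 0).obj N

/-- homology of the stalk complex -/
noncomputable def HHSF (N : ModuleCat.{u} Λ) : HH 0 (SF N) ≅ N :=
  (singleFunctorCompHomologyFunctorIso (ModuleCat.{u} Λ) 0).app N

lemma FGc_SF {N : ModuleCat.{u} Λ} (hN : IsNoetherian Λ N) : FGc (SF N) := by
  intro j
  by_cases hj : j = 0
  · subst hj
    exact noeth_of_iso (HHSF N).symm hN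
  · rcases lt_or_gt_of_ne hj with hj | hj
    · exact noeth_of_isZero (isZero_of_isGE _ 0 j hj)
    · exact noeth_of_isZero (isZero_of_isLE _ 0 j hj)

variable {R} in
lemma main_step {n : ℕ} {P : DerivedCategory (ModuleCat.{u} Λ)} (hP : PData R n P) (ℓ : ℕ)
    (hℓ : 1 ≤ ℓ) (hℓn : ℓ ≤ n) (C : ModuleCat.{u} Λ) (hfg : IsNoetherian Λ C)
    (hC : ∀ i, (ℓ : ℤ) < i → HZ P ((SF C)⟦i⟧)) :
    ∃ (Y : ModuleCat.{u} Λ) (f : C ⟶ Y), IsNoetherian Λ Y ∧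
      (∀ i, (ℓ : ℤ) - 1 < i → HZ P ((SF Y)⟦i⟧)) ∧
      (∀ X : ModuleCat.{u} Λ, U P (SF X) → ∀ g : C ⟶ X, ∃ h : Y ⟶ X, f ≫ h = g) := by
  obtain ⟨B, φ, hBU, hBfg, hBgap, hBext⟩ := approx hP ℓ (SF C) (FGc_SF hfg) hC
  have hB0 : B.IsLE 0 := hP.U_le B hBU
  have hgap : ∀ j, (ℓ : ℤ) - n - 1 < j → j < 0 → IsZero (HH j B) := by
    intro j hj hj0
    refine hBgap j (isZero_of_isGE _ 0 j hj0) ?_
    intro k hk hk'
    exact hP.gap _ (by lia) (by lia)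
  let t : TStructure (DerivedCategory (ModuleCat.{u} Λ)) := TStructure.t
  obtain ⟨B', B'', hB', hB'', a, b, c, hT⟩ := t.exists_triangle B (-1) 0 (by norm_num)
  have hB'LE : B'.IsLE (-1) := ⟨hB'⟩
  have hB''GE : B''.IsGE 0 := ⟨hB''⟩
  have hB'2 : B'.IsLE ((ℓ : ℤ) - n - 1) := by
    rw [isLE_iff]
    intro j hj
    by_cases hj0 : -1 < j
    · exact isZero_of_isLE _ (-1) j hj0
    · have h3 : IsZero (HH (j - 1) B'') := isZero_of_isGE _ 0 (j - 1) (by lia)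
      exact HH_zero₁ hT (j - 1) j (by lia) h3 (hgap j hj (by lia))
  have hB''LE : B''.IsLE 0 := by
    rw [isLE_iff]
    intro j hj
    have h2 : IsZero (HH j B) := isZero_of_isLE _ 0 j hj
    have h1 : IsZero (HH (j + 1) B') := isZero_of_isLE _ (-1) (j + 1) (by lia)
    exact HH_zero₃ hT j (j + 1) rfl h2 h1
  obtain ⟨Y, ⟨e⟩⟩ := exists_iso_singleFunctor_obj_of_isGE_of_isLE B'' 0
  have hB'fg : FGc B' := by
    intro j
    by_cases hj0 : -1 < j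
    · exact noeth_of_isZero (isZero_of_isLE _ (-1) j hj0)
    · have h3 : IsZero (HH (j - 1) B'') := isZero_of_isGE _ 0 (j - 1) (by lia)
      exact noeth_of_exact (HomologySequence.exact₁ _ hT (j - 1) j (by lia))
        (noeth_of_isZero h3) (hBfg j)
  have hB''fg : FGc B'' := FGc.obj₃ hT hB'fg hBfg
  obtain ⟨f, hf⟩ := (singleFunctor (ModuleCat.{u} Λ) 0).map_surjective (φ ≫ b ≫ e.hom)
  refine ⟨Y, f, ?_, ?_, ?_⟩
  · exact noeth_of_iso (HHSF Y) ((hB''fg.of_iso e) 0)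
  · intro i hi
    have h1 : HZ P (B''⟦i⟧) := by
      refine HZ.obj₃_shift hT i (i + 1) rfl (hBU i (by lia)) ?_
      have := t.isLE_shift B' ((ℓ : ℤ) - n - 1) (i + 1) ((ℓ : ℤ) - n - 1 - (i + 1)) (by lia)
      have h2 : t.IsLE (B'⟦i + 1⟧) (-(n : ℤ) - 1) :=
        t.isLE_of_le _ ((ℓ : ℤ) - n - 1 - (i + 1)) _ (by lia)
      exact hP.hz _ h2
    exact h1.of_iso (Iso.refl _) ((shiftFunctor _ i).mapIso e)
  · intro X hX g
    obtain ⟨g', hg'⟩ := hBext (SF X) hX ((singleFunctor (ModuleCat.{u} Λ) 0).map g)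
    have hz : HZ B' (SF X) := fun w ↦ t.zero w (-1) 0
    obtain ⟨g'', hg''⟩ := Triangle.yoneda_exact₂ _ hT g' (hz _)
    dsimp at g'' hg''
    obtain ⟨h, hh⟩ := (singleFunctor (ModuleCat.{u} Λ) 0).map_surjective (e.inv ≫ g'')
    refine ⟨h, (singleFunctor (ModuleCat.{u} Λ) 0).map_injective ?_⟩
    rw [Functor.map_comp, hf, hh, ← hg', hg'']
    simp

variable {R} in
lemma main_induction {n : ℕ} {P : DerivedCategory (ModuleCat.{u} Λ)} (hP : PData R n P) (ℓ : ℕ)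
    (hℓn : ℓ ≤ n) (C : ModuleCat.{u} Λ) (hfg : IsNoetherian Λ C)
    (hC : ∀ i, (ℓ : ℤ) < i → HZ P ((SF C)⟦i⟧)) :
    ∃ (Y : ModuleCat.{u} Λ) (f : C ⟶ Y), IsNoetherian Λ Y ∧ U P (SF Y) ∧
      (∀ X : ModuleCat.{u} Λ, U P (SF X) → ∀ g : C ⟶ X, ∃ h : Y ⟶ X, f ≫ h = g) := by
  induction ℓ generalizing C with
  | zero => exact ⟨C, 𝟙 C, hfg, hC, fun X _ g ↦ ⟨g, by simp⟩⟩
  | succ ℓ ih =>
    obtain ⟨Y, f, h1, h2, h3⟩ := main_step hP (ℓ + 1) (by lia) hℓn C hfg hC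
    obtain ⟨Z, f', g1, g2, g3⟩ := ih (by lia) Y h1 (fun i hi ↦ h2 i (by push_cast; lia))
    refine ⟨Z, f ≫ f', g1, g2, ?_⟩
    intro X hX g
    obtain ⟨h, hh⟩ := h3 X hX g
    obtain ⟨h', hh'⟩ := g3 X hX h
    exact ⟨h', by rw [Category.assoc, hh', hh]⟩

variable {R} in
/-- Existence of preenvelopes from the abstract data. -/
theorem main_abstract {n : ℕ} {P : DerivedCategory (ModuleCat.{u} Λ)} (hP : PData R n P)
    (C : ModuleCat.{u} Λ) (hfg : IsNoetherian Λ C) :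
    ∃ (Y : ModuleCat.{u} Λ) (f : C ⟶ Y), IsNoetherian Λ Y ∧ U P (SF Y) ∧
      (∀ X : ModuleCat.{u} Λ, U P (SF X) → ∀ g : C ⟶ X, ∃ h : Y ⟶ X, f ≫ h = g) := by
  refine main_induction hP n le_rfl C hfg fun i hi ↦ hP.hz _ ?_
  have := TStructure.t.isLE_shift (SF C) 0 i (-i) (by lia)
  exact TStructure.t.isLE_of_le _ (-i) _ (by lia)

end Derived

end Pool.Agent.TauNTilting
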