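import Mathlib

universe u

namespace Pool.Agent.TauNTilting

lemma exists_functional (R : Type u) [CommRing R] [IsArtinianRing R] (J : Type u)
    [AddCommGroup J] [Module R J] (hJ : Module.Injective R J)
    (ι : (R ⧸ Ring.jacobson R) →ₗ[R] J) (hι : Function.Injective ι)
    {Q : Type u} [AddCommGroup Q] [Module R Q] (q : Q) (hq : q ≠ 0) :
    ∃ B : Q →ₗ[R] J, B q ≠ 0 := by
  have hss : IsSemisimpleModule R (R ⧸ Ring.jacobson R) := by
    rw [IsArtinian.isSemisimpleModule_iff_jacobson]
    exact Module.jacobson_quotient_jacobson R R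
  let s : R →ₗ[R] Q := LinearMap.toSpanSingleton R Q q
  let I : Ideal R := LinearMap.ker s
  have hI : I ≠ ⊤ := by
    intro h
    have : (1 : R) ∈ I := h ▸ Submodule.mem_top
    rw [LinearMap.mem_ker] at this
    simp [s] at this
    exact hq this
  obtain ⟨m, hm, hIm⟩ := Ideal.exists_le_maximal I hI
  have hjm : Ring.jacobson R ≤ m := Ring.jacobson_le_of_isMaximal m
  obtain ⟨h, hh⟩ := IsSemisimpleModule.lifting_property
    (Submodule.factor hjm) (Submodule.factor_surjective hjm) (LinearMap.id (R := R) (M := R ⧸ m))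
  have hinj : Function.Injective h := by
    intro x y hxy
    have hx := LinearMap.congr_fun hh x
    have hy := LinearMap.congr_fun hh y
    simp only [LinearMap.comp_apply, LinearMap.id_apply] at hx hy
    rw [← hx, ← hy, hxy]
  let g : (R ⧸ I) →ₗ[R] J := ι ∘ₗ h ∘ₗ Submodule.factor hIm
  let k : (R ⧸ I) →ₗ[R] Q := Submodule.liftQ I s le_rfl
  have hk : Function.Injective k := by
    rw [← LinearMap.ker_eq_bot]
    exact Submodule.ker_liftQ_eq_bot _ _ _ le_rfl
  obtain ⟨B, hB⟩ := hJ.out k hk g
  refine ⟨B, ?_⟩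
  have h1 : k (Submodule.Quotient.mk 1) = q :=
    (Submodule.liftQ_apply I s (1 : R)).trans (one_smul R q)
  rw [← h1, hB]
  have h2 : (Submodule.factor hIm (Submodule.Quotient.mk 1) : R ⧸ m) = Submodule.Quotient.mk 1 := rfl
  simp only [g, LinearMap.comp_apply, h2]
  intro h0
  have h3 := hι (h0.trans (map_zero ι).symm)
  have h4 := hinj (h3.trans (map_zero h).symm)
  rw [Submodule.Quotient.mk_eq_zero] at h4
  exact hm.ne_top ((Ideal.eq_top_iff_one m).2 h4)

end Pool.Agent.TauNTilting
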