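import Mathlib

/-!
# Definitions: minimal resolutions, silting complexes, `τ_n` and its perpendicular class

`Λ` is an Artin algebra over the commutative artinian ring `R`, and `J` is the injective envelope of
`R / rad R`, so that `D = Hom_R(-, J)` is the usual duality.
-/

open CategoryTheory Limits

universe u

namespace Pool.Agent.TauNTilting

section Resolution

variable {Λ : Type u} [Ring Λ]

/-- A submodule `N` of the module `P` is *superfluous* (small) if `N + K = P` implies `K = P` for
every submodule `K` of `P`. -/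
def IsSuperfluous {P : Type u} [AddCommGroup P] [Module Λ P] (N : Submodule Λ P) : Prop :=
  ∀ K : Submodule Λ P, N ⊔ K = ⊤ → K = ⊤

/-- The morphism `f` of `Λ`-modules has a superfluous kernel.  (A surjection from a finitely
generated projective module with this property is a projective cover.) -/
def HasSuperfluousKernel {A B : ModuleCat.{u} Λ} (f : A ⟶ B) : Prop :=
  IsSuperfluous (LinearMap.ker f.hom)

/-- A projective resolution `⋯ → P₁ → P₀ → M → 0` of the left `Λ`-module `M` is *minimal* if all
`P_i` are finitely generated and each of the surjections `P₀ → M` and `P_{i+1} → im (d_{i+1})`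
is a projective cover, that is, has a superfluous kernel.  In particular `M` is finitely
generated. -/
structure IsMinimal {M : ModuleCat.{u} Λ} (P : ProjectiveResolution M) : Prop where
  finite (i : ℕ) : Module.Finite Λ (P.complex.X i)
  superfluous_zero : HasSuperfluousKernel (P.π.f 0)
  superfluous_succ (i : ℕ) : HasSuperfluousKernel (P.complex.d (i + 1) i)

/-- The complex `P_n → ⋯ → P₁ → P₀` with `P_i` in degree `-i`: the brutal truncation in degrees
`≥ -n` of the cochain complex of `Λ`-modules given by the projective resolution `P`. -/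
noncomputable def truncatedComplex {M : ModuleCat.{u} Λ} (P : ProjectiveResolution M) (n : ℕ) :
    CochainComplex (ModuleCat.{u} Λ) ℤ :=
  P.cochainComplex.stupidTrunc (ComplexShape.embeddingUpIntGE (-(n : ℤ)))

end Resolution

section Silting

variable (Λ : Type u) [Ring Λ]

/-- The homotopy category `K(Mod Λ)` of cochain complexes of left `Λ`-modules.  It contains
`K^b(proj Λ)` as the full subcategory `IsKbProj`. -/
abbrev KMod := HomotopyCategory (ModuleCat.{u} Λ) (ComplexShape.up ℤ)

variable {Λ}

/-- The full subcategory `K^b(proj Λ)` of `K(Mod Λ)`: the objects isomorphic to a bounded complex of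
finitely generated projective modules. -/
def IsKbProj : ObjectProperty (KMod Λ) := fun X ↦
  ∃ K : CochainComplex (ModuleCat.{u} Λ) ℤ,
    (∀ i, Module.Finite Λ (K.X i) ∧ Module.Projective Λ (K.X i)) ∧
    (∃ a b : ℤ, ∀ i, (i < a ∨ b < i) → IsZero (K.X i)) ∧
    Nonempty (X ≅ (HomotopyCategory.quotient _ _).obj K)

/-- `Y` belongs to `add X`: it is a direct summand of a finite direct sum of copies of `X`. -/
def IsAdd {C : Type*} [Category C] [HasZeroMorphisms C] (X Y : C) : Prop :=
  ∃ (r : ℕ) (B : Bicone (fun _ : Fin r ↦ X)), Nonempty B.IsBilimit ∧ Nonempty (Retract Y B.pt)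

/-- The object `P` of `K^b(proj Λ)` is *silting*: `Hom(P, P[i]) = 0` for all `i > 0`, and every
(strictly full) triangulated subcategory `S` which contains `add P` contains `K^b(proj Λ)`; that
is, the smallest triangulated subcategory containing `add P` is `K^b(proj Λ)`. -/
structure IsSilting (P : KMod Λ) : Prop where
  mem : IsKbProj P
  hom_eq_zero : ∀ i : ℤ, 0 < i → ∀ f : P ⟶ P⟦i⟧, f = 0
  generates : ∀ S : ObjectProperty (KMod Λ), S.IsTriangulated → S.IsClosedUnderIsomorphisms →
    (∀ Y, IsAdd P Y → S Y) → ∀ Y, IsKbProj Y → S Y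

end Silting

section AR

variable (R : Type u) [CommRing R] {Λ : Type u} [Ring Λ] [Algebra R Λ]

/-- The map `Hom_Λ(P₀, Λ) → Hom_Λ(P₁, Λ)`, `g ↦ g ∘ d`, of right `Λ`-modules induced by
`d : P₁ → P₀`. -/
def dualMap {P₁ P₀ : Type u} [AddCommGroup P₁] [Module Λ P₁] [AddCommGroup P₀] [Module Λ P₀]
    (d : P₁ →ₗ[Λ] P₀) : (P₀ →ₗ[Λ] Λ) →ₗ[Λᵐᵒᵖ] (P₁ →ₗ[Λ] Λ) where
  toFun g := g ∘ₗ d
  map_add' _ _ := rfl
  map_smul' _ _ := rfl

/-- The transpose of the cokernel of `d : P₁ → P₀`: the cokernel of the map
`Hom_Λ(P₀, Λ) → Hom_Λ(P₁, Λ)`, a right `Λ`-module. -/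
def Transpose {P₁ P₀ : Type u} [AddCommGroup P₁] [Module Λ P₁] [AddCommGroup P₀] [Module Λ P₀]
    (d : P₁ →ₗ[Λ] P₀) : Type u := (P₁ →ₗ[Λ] Λ) ⧸ LinearMap.range (dualMap d)

section

variable {P₁ P₀ : Type u} [AddCommGroup P₁] [Module Λ P₁] [AddCommGroup P₀] [Module Λ P₀]
  (d : P₁ →ₗ[Λ] P₀)

instance : AddCommGroup (Transpose d) :=
  Submodule.Quotient.addCommGroup (LinearMap.range (dualMap d))

instance : Module Λᵐᵒᵖ (Transpose d) :=
  Submodule.Quotient.module (LinearMap.range (dualMap d))

instance : Module R (Transpose d) :=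
  Submodule.Quotient.module' (LinearMap.range (dualMap d))

instance : SMulCommClass R Λᵐᵒᵖ (Transpose d) :=
  Submodule.Quotient.smulCommClass (LinearMap.range (dualMap d)) Λᵐᵒᵖ

end

/-- The dual `D(T) = Hom_R(T, J)` of a right `Λ`-module `T`; it is a left `Λ`-module by
`(a φ)(t) = φ(t a)`. -/
def DualModule (J T : Type u) [AddCommGroup J] [Module R J] [AddCommGroup T] [Module R T] : Type u :=
  T →ₗ[R] J

instance (J T : Type u) [AddCommGroup J] [Module R J] [AddCommGroup T] [Module R T] :
    AddCommGroup (DualModule R J T) := LinearMap.addCommGroup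

instance (J T : Type u) [AddCommGroup J] [Module R J] [AddCommGroup T] [Module R T] :
    FunLike (DualModule R J T) T J := LinearMap.instFunLike

instance (J T : Type u) [AddCommGroup J] [Module R J] [AddCommGroup T] [Module R T]
    [Module Λᵐᵒᵖ T] [SMulCommClass R Λᵐᵒᵖ T] : Module Λ (DualModule R J T) where
  smul a φ := LinearMap.comp (show T →ₗ[R] J from φ)
    ({ toFun := fun t ↦ MulOpposite.op a • t
       map_add' := fun _ _ ↦ smul_add _ _ _
       map_smul' := fun r t ↦ (smul_comm r (MulOpposite.op a) t).symm } : T →ₗ[R] T)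
  one_smul φ := LinearMap.ext fun t ↦ congrArg φ (one_smul Λᵐᵒᵖ t)
  mul_smul a b φ := LinearMap.ext fun t ↦
    congrArg φ (mul_smul (MulOpposite.op b) (MulOpposite.op a) t)
  smul_zero _ := rfl
  smul_add _ _ _ := rfl
  add_smul a b φ := LinearMap.ext fun t ↦
    (congrArg φ (add_smul (MulOpposite.op a) (MulOpposite.op b) t)).trans
      (map_add (show T →ₗ[R] J from φ) _ _)
  zero_smul φ := LinearMap.ext fun t ↦
    (congrArg φ (zero_smul Λᵐᵒᵖ t)).trans (map_zero (show T →ₗ[R] J from φ))

/-- The left `Λ`-module `D Tr (coker d)` of a morphism `d : P₁ → P₀`. -/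
noncomputable def dualTranspose (J : Type u) [AddCommGroup J] [Module R J]
    {P₁ P₀ : ModuleCat.{u} Λ} (d : P₁ ⟶ P₀) : ModuleCat.{u} Λ :=
  ModuleCat.of Λ (DualModule R J (Transpose d.hom))

end AR

/-- `ι : A → J` is an injective envelope of the `R`-module `A`: it is an essential monomorphism into
an injective module. -/
structure IsInjectiveEnvelope (R : Type u) [CommRing R] (A J : Type u) [AddCommGroup A]
    [Module R A] [AddCommGroup J] [Module R J] (ι : A →ₗ[R] J) : Prop where
  injective : Module.Injective R J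
  embedding : Function.Injective ι
  essential : ∀ N : Submodule R J, N ⊓ LinearMap.range ι = ⊥ → N = ⊥

section Main

variable (R : Type u) [CommRing R] {Λ : Type u} [Ring Λ] [Algebra R Λ]
  (J : Type u) [AddCommGroup J] [Module R J]

/-- `τ_n M = τ Ω^{n-1} M = D Tr Ω^{n-1} M` for `n ≥ 1`, computed from the minimal projective
resolution `P` of `M`: `P_n → P_{n-1}` is a minimal projective presentation of `Ω^{n-1} M`. -/
noncomputable def TauN {M : ModuleCat.{u} Λ} (P : ProjectiveResolution M) (n : ℕ) :
    ModuleCat.{u} Λ :=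
  dualTranspose R J (P.complex.d n (n - 1))

/-- The `τ_n`-perpendicular class of `M`: the finitely generated `Λ`-modules `N` with
`Hom_Λ(N, τ_n M) = 0` and `Ext^i_Λ(M, N) = 0` for `1 ≤ i ≤ n - 1`. -/
structure TauPerp {M : ModuleCat.{u} Λ} (P : ProjectiveResolution M) (n : ℕ)
    (N : ModuleCat.{u} Λ) : Prop where
  finite : Module.Finite Λ N
  hom_eq_zero : ∀ f : N ⟶ TauN R J P n, f = 0
  ext_eq_zero : ∀ i : ℕ, 1 ≤ i → i ≤ n - 1 → Subsingleton (Abelian.Ext M N i)

variable (Λ) in
/-- The class `𝒳` of modules is preenveloping in `mod Λ`: each finitely generated module `C` has a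
morphism `f : C → Y` with `Y` in `𝒳` through which every morphism from `C` to a module in `𝒳`
factors. -/
def IsPreenveloping (𝒳 : ModuleCat.{u} Λ → Prop) : Prop :=
  ∀ C : ModuleCat.{u} Λ, Module.Finite Λ C →
    ∃ (Y : ModuleCat.{u} Λ) (f : C ⟶ Y), 𝒳 Y ∧
      ∀ X : ModuleCat.{u} Λ, 𝒳 X → ∀ g : C ⟶ X, ∃ h : Y ⟶ X, f ≫ h = g

end Main

end Pool.Agent.TauNTilting
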