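import Mathlib
import Pool.Agent.Lib.TauNTilting.Approximation

set_option linter.unusedSectionVars false
set_option backward.defeqAttrib.useBackward true
set_option backward.isDefEq.respectTransparency false

open CategoryTheory Limits Pretriangulated Triangulated ZeroObject

universe w v u

namespace Pool.Agent.TauNTilting

section KProj

variable {C : Type u} [Category.{v} C] [Abelian C] [HasDerivedCategory.{w} C]

open DerivedCategory

lemma Q_map_surjective (K L : CochainComplex C ℤ) [K.IsKProjective] :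
    Function.Surjective (Q.map : (K ⟶ L) → (Q.obj K ⟶ Q.obj L)) := by
  intro f
  obtain ⟨g, hg⟩ := (CochainComplex.IsKProjective.Qh_map_bijective K
    ((HomotopyCategory.quotient _ _).obj L)).surjective
      ((quotientCompQhIso C).hom.app K ≫ f ≫ (quotientCompQhIso C).inv.app L)
  obtain ⟨h, rfl⟩ := (HomotopyCategory.quotient _ _).map_surjective g
  refine ⟨h, ?_⟩
  rw [← cancel_epi ((quotientCompQhIso C).hom.app K), ← quotientCompQhIso_hom_naturality, hg]
  simp

lemma hz_of_isLE (K : CochainComplex C ℤ) [K.IsKProjective] (n : ℤ) [K.IsStrictlyGE n]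
    (Y : DerivedCategory C) (hY : Y.IsLE (n - 1)) : HZ (Q.obj K) Y := by
  obtain ⟨L, hL, ⟨e⟩⟩ := exists_iso_Q_obj_of_isLE Y (n - 1)
  suffices h : HZ (Q.obj K) (Q.obj L) from h.of_iso (Iso.refl _) e.symm
  intro f
  obtain ⟨g, rfl⟩ := Q_map_surjective K L f
  have : g = 0 := by
    ext i
    by_cases hi : i < n
    · exact (K.isZero_of_isStrictlyGE n i hi).eq_of_src _ _
    · exact (L.isZero_of_isStrictlyLE (n - 1) i (by lia)).eq_of_tgt _ _
  rw [this, Functor.map_zero]

/-- Vanishing in the homotopy category gives vanishing in the derived category. -/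
lemma hz_shift_of_homotopy (K : CochainComplex C ℤ) (L : CochainComplex C ℤ) [K.IsKProjective]
    (i : ℤ) (h : HZ ((HomotopyCategory.quotient C (.up ℤ)).obj K)
      (((HomotopyCategory.quotient C (.up ℤ)).obj L)⟦i⟧)) :
    HZ (Q.obj K) ((Q.obj L)⟦i⟧) := by
  have h1 : HZ (Qh.obj ((HomotopyCategory.quotient C (.up ℤ)).obj K))
      (Qh.obj (((HomotopyCategory.quotient C (.up ℤ)).obj L)⟦i⟧)) := by
    intro f
    obtain ⟨g, rfl⟩ := (CochainComplex.IsKProjective.Qh_map_bijective K _).surjective f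
    rw [h g, Functor.map_zero]
  refine h1.of_iso ((quotientCompQhIso C).app K) ?_
  exact (Qh.commShiftIso i).app _ ≪≫ (shiftFunctor _ i).mapIso ((quotientCompQhIso C).app L)

lemma hz_shift_to_homotopy (K : CochainComplex C ℤ) (L : CochainComplex C ℤ) [K.IsKProjective]
    (i : ℤ) (h : HZ (Q.obj K) ((Q.obj L)⟦i⟧)) :
    HZ ((HomotopyCategory.quotient C (.up ℤ)).obj K)
      (((HomotopyCategory.quotient C (.up ℤ)).obj L)⟦i⟧) := by
  have h1 : HZ (Qh.obj ((HomotopyCategory.quotient C (.up ℤ)).obj K))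
      (Qh.obj (((HomotopyCategory.quotient C (.up ℤ)).obj L)⟦i⟧)) := by
    refine HZ.of_iso h ((quotientCompQhIso C).app K).symm ?_
    exact ((Qh.commShiftIso i).app _ ≪≫
      (shiftFunctor _ i).mapIso ((quotientCompQhIso C).app L)).symm
  intro f
  apply (CochainComplex.IsKProjective.Qh_map_bijective K _).injective
  rw [Functor.map_zero]
  exact h1 _


open CochainComplex.HomComplex in
lemma hz_single_iff (K : CochainComplex C ℤ) [K.IsKProjective] (N : C) (i p p' p'' : ℤ)
    (hp : p + i = 0) (hp' : p' + 1 = p) (hp'' : p + 1 = p'') :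
    HZ (Q.obj K) (((singleFunctor C 0).obj N)⟦i⟧) ↔
      ∀ f : K.X p ⟶ N, K.d p' p ≫ f = 0 → ∃ g : K.X p'' ⟶ N, K.d p p'' ≫ g = f := by
  have e := (singleFunctorIsoCompQ C 0).app N
  have h1 : HZ (Q.obj K) (((singleFunctor C 0).obj N)⟦i⟧) ↔
      HZ (Q.obj K) ((Q.obj ((CochainComplex.singleFunctor C 0).obj N))⟦i⟧) :=
    ⟨fun h ↦ h.of_iso (Iso.refl _) ((shiftFunctor _ i).mapIso e),
      fun h ↦ h.of_iso (Iso.refl _) ((shiftFunctor _ i).mapIso e).symm⟩
  have h2 : HZ (Q.obj K) ((Q.obj ((CochainComplex.singleFunctor C 0).obj N))⟦i⟧) ↔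
      HZ ((HomotopyCategory.quotient C (.up ℤ)).obj K)
        ((HomotopyCategory.quotient C (.up ℤ)).obj
          (((CochainComplex.singleFunctor C 0).obj N)⟦i⟧)) := by
    have e' := ((HomotopyCategory.quotient C (.up ℤ)).commShiftIso i).app
      ((CochainComplex.singleFunctor C 0).obj N)
    exact ⟨fun h ↦ (hz_shift_to_homotopy _ _ _ h).of_iso (Iso.refl _) e'.symm,
      fun h ↦ hz_shift_of_homotopy _ _ _ (h.of_iso (Iso.refl _) e')⟩
  rw [h1, h2]
  constructor
  · intro h f hf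
    have := (CohomologyClass.toHom_mk_eq_zero_iff (Cocycle.toSingleMk f hp p' hp' hf)).1 (h _)
    rwa [Cocycle.toSingleMk_mem_coboundaries_iff _ _ _ _ _ p'' hp''] at this
  · intro h f
    obtain ⟨x, rfl⟩ := (CohomologyClass.toHom_bijective _ _ _).surjective f
    obtain ⟨y, rfl⟩ := x.mk_surjective
    obtain ⟨g, hg, rfl⟩ := Cocycle.toSingleMk_surjective y p hp p' hp'
    rw [CohomologyClass.toHom_mk_eq_zero_iff,
      Cocycle.toSingleMk_mem_coboundaries_iff _ _ _ _ _ p'' hp'']
    exact h g hg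

end KProj

section Fin

variable (R : Type u) {Λ : Type u} [CommRing R] [Ring Λ] [Algebra R Λ]
  [HasDerivedCategory.{w} (ModuleCat.{u} Λ)]

open DerivedCategory ModuleCat.Algebra

lemma noeth_hom_module [IsNoetherianRing R] [Module.Finite R Λ] (M N : ModuleCat.{u} Λ)
    (hM : Module.Finite Λ M) (hN : IsNoetherian Λ N) : IsNoetherian R (M ⟶ N) := by
  have : Module.Finite Λ N := inferInstance
  have : Module.Finite R N := Module.Finite.trans Λ N
  have : IsNoetherian R N := inferInstance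
  obtain ⟨m, f, hf⟩ := Module.Finite.exists_fin' Λ M
  let φ : (M ⟶ N) →ₗ[R] (Fin m → N) :=
    { toFun := fun g k ↦ g.hom (f (Pi.single k 1))
      map_add' := fun _ _ ↦ rfl
      map_smul' := fun _ _ ↦ rfl }
  have hφ : Function.Injective φ := by
    intro g h hgh
    apply ModuleCat.hom_ext
    apply LinearMap.ext
    intro x
    obtain ⟨y, rfl⟩ := hf x
    have : g.hom ∘ₗ f = h.hom ∘ₗ f := by
      apply LinearMap.pi_ext'
      intro k
      apply LinearMap.ext_ring
      exact congrFun hgh k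
    exact LinearMap.congr_fun this y
  exact isNoetherian_of_injective φ hφ

lemma fin_single [IsNoetherianRing R] [Module.Finite R Λ]
    (K : CochainComplex (ModuleCat.{u} Λ) ℤ) [K.IsKProjective]
    (hK : ∀ i, Module.Finite Λ (K.X i)) (N : ModuleCat.{u} Λ) (hN : IsNoetherian Λ N) (j : ℤ) :
    IsNoetherian R (Q.obj K ⟶ (singleFunctor (ModuleCat.{u} Λ) j).obj N) := by
  have e := (singleFunctorIsoCompQ (ModuleCat.{u} Λ) j).app N
  have h1 : IsNoetherian R (K.X j ⟶ N) := noeth_hom_module R _ _ (hK j) hN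
  let φ : (K ⟶ (CochainComplex.singleFunctor _ j).obj N) →ₗ[R] (K.X j ⟶ N) :=
    { toFun := fun f ↦ f.f j ≫ (HomologicalComplex.singleObjXSelf (.up ℤ) j N).hom
      map_add' := fun f g ↦ by simp
      map_smul' := fun r f ↦ by simp }
  have hφ : Function.Injective φ := by
    intro f g hfg
    apply HomologicalComplex.to_single_hom_ext
    rw [← cancel_mono (HomologicalComplex.singleObjXSelf (.up ℤ) j N).hom]
    exact hfg
  have h2 : IsNoetherian R (K ⟶ (CochainComplex.singleFunctor _ j).obj N) :=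
    isNoetherian_of_injective φ hφ
  have h3 : IsNoetherian R
      (Q.obj K ⟶ (CochainComplex.singleFunctor (ModuleCat.{u} Λ) j ⋙ Q).obj N) :=
    isNoetherian_of_surjective (f := Q.mapLinearMap R)
      (LinearMap.range_eq_top.2 (Q_map_surjective K _))
  exact isNoetherian_of_linearEquiv (Linear.homCongr R (Iso.refl (Q.obj K)) e.symm)


lemma noeth_hom₂ {P : DerivedCategory (ModuleCat.{u} Λ)}
    {T : Triangle (DerivedCategory (ModuleCat.{u} Λ))} (hT : T ∈ distTriang _)
    (h₁ : IsNoetherian R (P ⟶ T.obj₁)) (h₃ : IsNoetherian R (P ⟶ T.obj₃)) :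
    IsNoetherian R (P ⟶ T.obj₂) := by
  refine isNoetherian_of_range_eq_ker (Linear.rightComp R P T.mor₁) (Linear.rightComp R P T.mor₂) ?_
  ext f
  rw [LinearMap.mem_range, LinearMap.mem_ker, Linear.rightComp_apply]
  constructor
  · rintro ⟨g, rfl⟩
    rw [Linear.rightComp_apply, Category.assoc, comp_distTriang_mor_zero₁₂ _ hT, comp_zero]
  · intro hf
    obtain ⟨g, hg⟩ := Triangle.coyoneda_exact₂ T hT f hf
    exact ⟨g, hg.symm⟩

lemma fin_of_isLE [IsNoetherianRing R] [Module.Finite R Λ] (n : ℕ)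
    (K : CochainComplex (ModuleCat.{u} Λ) ℤ) [K.IsKProjective] [K.IsStrictlyGE (-(n : ℤ))]
    (hK : ∀ i, Module.Finite Λ (K.X i)) (k : ℕ) (X : DerivedCategory (ModuleCat.{u} Λ))
    (hX : FGc X) (hX' : X.IsLE (-(n : ℤ) - 1 + k)) :
    IsNoetherian R (Q.obj K ⟶ X) := by
  induction k generalizing X with
  | zero =>
    have h : HZ (Q.obj K) X := hz_of_isLE K (-(n : ℤ)) X (by simpa using hX')
    have : Subsingleton (Q.obj K ⟶ X) := ⟨fun f g ↦ by rw [h f, h g]⟩
    infer_instance
  | succ k ih =>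
    let t : TStructure (DerivedCategory (ModuleCat.{u} Λ)) := TStructure.t
    obtain ⟨B', B'', hB', hB'', a, b, c, hT⟩ :=
      t.exists_triangle X (-(n : ℤ) - 1 + k) (-(n : ℤ) - 1 + (k + 1 : ℕ)) (by push_cast; ring)
    have hB'LE : B'.IsLE (-(n : ℤ) - 1 + k) := ⟨hB'⟩
    have hB''GE : B''.IsGE (-(n : ℤ) - 1 + (k + 1 : ℕ)) := ⟨hB''⟩
    have hB''LE : B''.IsLE (-(n : ℤ) - 1 + (k + 1 : ℕ)) := by
      rw [isLE_iff]
      intro j hj
      have h2 : IsZero (HH j X) := isZero_of_isLE _ _ j hj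
      have h1 : IsZero (HH (j + 1) B') :=
        isZero_of_isLE _ (-(n : ℤ) - 1 + k) (j + 1) (by push_cast at hj; lia)
      exact HH_zero₃ hT j (j + 1) rfl h2 h1
    have hB'fg : FGc B' := by
      intro j
      by_cases hj0 : -(n : ℤ) - 1 + k < j
      · exact noeth_of_isZero (isZero_of_isLE _ _ j hj0)
      · have h3 : IsZero (HH (j - 1) B'') :=
          isZero_of_isGE _ (-(n : ℤ) - 1 + (k + 1 : ℕ)) (j - 1) (by push_cast; lia)
        exact noeth_of_exact (HomologySequence.exact₁ _ hT (j - 1) j (by lia))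
          (noeth_of_isZero h3) (hX j)
    have hB''fg : FGc B'' := FGc.obj₃ hT hB'fg hX
    obtain ⟨Y, ⟨e⟩⟩ := exists_iso_singleFunctor_obj_of_isGE_of_isLE B''
      (-(n : ℤ) - 1 + (k + 1 : ℕ))
    have hY : IsNoetherian Λ Y := by
      refine noeth_of_iso ?_ ((hB''fg.of_iso e) (-(n : ℤ) - 1 + (k + 1 : ℕ)))
      exact (singleFunctorCompHomologyFunctorIso (ModuleCat.{u} Λ) _).app Y
    have h4 := fin_single R K hK Y hY (-(n : ℤ) - 1 + (k + 1 : ℕ))
    have h3 : IsNoetherian R (Q.obj K ⟶ B'') :=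
      isNoetherian_of_linearEquiv (Linear.homCongr R (Iso.refl (Q.obj K)) e.symm)
    exact noeth_hom₂ R hT (ih B' hB'fg hB'LE) h3

lemma fin_all [IsNoetherianRing R] [Module.Finite R Λ] (n : ℕ)
    (K : CochainComplex (ModuleCat.{u} Λ) ℤ) [K.IsKProjective] [K.IsStrictlyGE (-(n : ℤ))]
    [K.IsStrictlyLE 0]
    (hK : ∀ i, Module.Finite Λ (K.X i)) (X : DerivedCategory (ModuleCat.{u} Λ))
    (hX : FGc X) :
    IsNoetherian R (Q.obj K ⟶ X) := by
  let t : TStructure (DerivedCategory (ModuleCat.{u} Λ)) := TStructure.t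
  obtain ⟨B', B'', hB', hB'', a, b, c, hT⟩ := t.exists_triangle X 0 1 (by norm_num)
  have hB'LE : B'.IsLE 0 := ⟨hB'⟩
  have hB''GE : B''.IsGE 1 := ⟨hB''⟩
  have hB'fg : FGc B' := by
    intro j
    by_cases hj0 : 0 < j
    · exact noeth_of_isZero (isZero_of_isLE _ _ j hj0)
    · have h3 : IsZero (HH (j - 1) B'') := isZero_of_isGE _ 1 (j - 1) (by lia)
      exact noeth_of_exact (HomologySequence.exact₁ _ hT (j - 1) j (by lia))
        (noeth_of_isZero h3) (hX j)
  have h1 : IsNoetherian R (Q.obj K ⟶ B') :=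
    fin_of_isLE R n K hK (n + 1) B' hB'fg (by simpa using hB'LE)
  have hK0 : (Q.obj K).IsLE 0 := inferInstance
  have h3 : HZ (Q.obj K) B'' := fun f ↦ t.zero f 0 1
  have : Subsingleton (Q.obj K ⟶ B'') := ⟨fun f g ↦ by rw [h3 f, h3 g]⟩
  have h4 : IsNoetherian R (Q.obj K ⟶ B'') := inferInstance
  exact noeth_hom₂ R hT h1 h4

end Fin

end Pool.Agent.TauNTilting
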