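import Mathlib
import Pool.Agent.Lib.TauNTilting.KProjective

set_option linter.unusedSectionVars false
set_option backward.defeqAttrib.useBackward true
set_option backward.isDefEq.respectTransparency false

open CategoryTheory Limits Pretriangulated Triangulated ZeroObject

universe w v u

namespace Pool.Agent.TauNTilting

section Single

variable {C : Type u} [Category.{v} C] [Abelian C] [HasDerivedCategory.{w} C]

open DerivedCategory

instance single_projective (A : C) [Projective A] (i : ℤ) :
    Projective (((CochainComplex.singleFunctor C 0).obj A).X i) := by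
  by_cases hi : i = 0
  · subst hi
    exact Projective.of_iso (HomologicalComplex.singleObjXSelf (.up ℤ) 0 A).symm inferInstance
  · exact (HomologicalComplex.isZero_single_obj_X _ _ _ _ hi).projective

instance single_isKProjective (A : C) [Projective A] :
    ((CochainComplex.singleFunctor C 0).obj A).IsKProjective :=
  CochainComplex.isKProjective_of_projective _ 0

open CochainComplex.HomComplex in
lemma hz_from_single (A : C) [Projective A] (L : CochainComplex C ℤ) (i i' i'' : ℤ)
    (hi' : i + 1 = i') (hi'' : i'' + 1 = i)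
    (h : HZ ((singleFunctor C 0).obj A) ((Q.obj L)⟦i⟧))
    (f : A ⟶ L.X i) (hf : f ≫ L.d i i' = 0) : ∃ g : A ⟶ L.X i'', g ≫ L.d i'' i = f := by
  have e := (singleFunctorIsoCompQ C 0).app A
  have h1 : HZ (Q.obj ((CochainComplex.singleFunctor C 0).obj A)) ((Q.obj L)⟦i⟧) :=
    h.of_iso e (Iso.refl _)
  have h2 : HZ ((HomotopyCategory.quotient C (.up ℤ)).obj ((CochainComplex.singleFunctor C 0).obj A))
        ((HomotopyCategory.quotient C (.up ℤ)).obj (L⟦i⟧)) :=
    (hz_shift_to_homotopy _ _ _ h1).of_iso (Iso.refl _)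
      (((HomotopyCategory.quotient C (.up ℤ)).commShiftIso i).app L).symm
  have := (CohomologyClass.toHom_mk_eq_zero_iff
    (Cocycle.fromSingleMk f (zero_add i) i' hi' hf)).1 (h2 _)
  rwa [Cocycle.fromSingleMk_mem_coboundaries_iff _ _ _ _ _ i'' hi''] at this

end Single

section Mod

variable {Λ : Type u} [Ring Λ] [HasDerivedCategory.{w} (ModuleCat.{u} Λ)]

open DerivedCategory

instance : Projective (ModuleCat.of Λ Λ) :=
  (IsProjective.iff_projective _).1 inferInstance

lemma isLE_of_hz_ring (X : DerivedCategory (ModuleCat.{u} Λ))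
    (h : ∀ i : ℤ, 0 < i → HZ (SF (ModuleCat.of Λ Λ)) (X⟦i⟧)) : X.IsLE 0 := by
  obtain ⟨L, ⟨e⟩⟩ : ∃ L, Nonempty (Q.obj L ≅ X) := ⟨_, ⟨Q.objObjPreimageIso X⟩⟩
  have hL : (Q.obj L).IsLE 0 := by
    rw [isLE_Q_obj_iff, CochainComplex.isLE_iff]
    intro i hi
    have hi1 : HZ (SF (ModuleCat.of Λ Λ)) ((Q.obj L)⟦i⟧) :=
      (h i hi).of_iso (Iso.refl _) ((shiftFunctor _ i).mapIso e).symm
    rw [HomologicalComplex.exactAt_iff' L (i - 1) i (i + 1) (by simp) (by simp),
      ShortComplex.moduleCat_exact_iff]
    intro x hx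
    obtain ⟨g, hg⟩ := hz_from_single (ModuleCat.of Λ Λ) L i (i + 1) (i - 1) rfl (by lia) hi1
      (ModuleCat.ofHom (LinearMap.toSpanSingleton Λ _ x)) (by
        ext
        simpa using hx)
    refine ⟨g.hom 1, ?_⟩
    have := congrArg (fun k ↦ k.hom (1 : Λ)) hg
    simpa using this
  exact TStructure.t.isLE_of_iso e 0

lemma FGc_Q (K : CochainComplex (ModuleCat.{u} Λ) ℤ) (hK : ∀ i, IsNoetherian Λ (K.X i)) :
    FGc (Q.obj K) := by
  intro j
  have e : HH j (Q.obj K) ≅ K.homology j := (homologyFunctorFactors _ j).app K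
  refine noeth_of_iso e.symm ?_
  have h1 : IsNoetherian Λ (K.X j) := hK j
  have h2 : IsNoetherian Λ (K.cycles j) :=
    isNoetherian_of_injective (K.iCycles j).hom ((ModuleCat.mono_iff_injective _).1 inferInstance)
  exact isNoetherian_of_surjective (f := (K.homologyπ j).hom)
    (LinearMap.range_eq_top.2 ((ModuleCat.epi_iff_surjective _).1 inferInstance))

end Mod

end Pool.Agent.TauNTilting
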