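import Mathlib
import Pool.Agent.Lib.TauNTilting.Stalk

set_option linter.unusedSectionVars false
set_option backward.defeqAttrib.useBackward true
set_option backward.isDefEq.respectTransparency false

open CategoryTheory Limits Pretriangulated Triangulated ZeroObject

universe w v u

namespace Pool.Agent.TauNTilting

section Trunc

variable {Λ : Type u} [Ring Λ] {M : ModuleCat.{u} Λ} (P : ProjectiveResolution M) (n : ℕ)

/-- truncation -/
noncomputable abbrev TC : CochainComplex (ModuleCat.{u} Λ) ℤ :=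
  P.cochainComplex.stupidTrunc (ComplexShape.embeddingUpIntGE (-(n : ℤ)))

instance : (TC P n).IsStrictlyGE (-(n : ℤ)) := inferInstance
instance : (TC P n).IsStrictlyLE 0 := inferInstance

/-- terms of the truncation -/
noncomputable def TCX (k : ℕ) (hk : k ≤ n) (i : ℤ) (hi : i = -(k : ℤ)) :
    (TC P n).X i ≅ P.complex.X k :=
  P.cochainComplex.stupidTruncXIso (ComplexShape.embeddingUpIntGE (-(n : ℤ)))
    (i := (n - k)) (i' := i) (by simp [hi]; lia) ≪≫
    P.cochainComplexXIso i k (by lia)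

lemma TC_d (k : ℕ) (hk : k + 1 ≤ n) (i j : ℤ) (hi : i = -((k + 1 : ℕ) : ℤ)) (hj : j = -(k : ℤ)) :
    (TC P n).d i j = (TCX P n (k + 1) hk i hi).hom ≫ P.complex.d (k + 1) k ≫
      (TCX P n k (by lia) j hj).inv := by
  have hi' : (ComplexShape.embeddingUpIntGE (-(n : ℤ))).f (n - (k + 1)) = i := by
    simp [hi]; lia
  have hj' : (ComplexShape.embeddingUpIntGE (-(n : ℤ))).f (n - k) = j := by
    simp [hj]; lia
  have h1 := HomologicalComplex.extend_d_eq
    (P.cochainComplex.restriction (ComplexShape.embeddingUpIntGE (-(n : ℤ))))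
    (ComplexShape.embeddingUpIntGE (-(n : ℤ))) hi' hj'
  have h2 := HomologicalComplex.restriction_d_eq P.cochainComplex
    (ComplexShape.embeddingUpIntGE (-(n : ℤ))) hi' hj'
  have h3 := P.cochainComplex_d i j (k + 1) k (by lia) (by lia)
  change HomologicalComplex.d (HomologicalComplex.extend _ _) i j = _
  rw [h1, h2, h3]
  simp [TCX, HomologicalComplex.stupidTruncXIso, HomologicalComplex.restrictionXIso]


lemma TC_isZero (i : ℤ) (hi : i < -(n : ℤ) ∨ 0 < i) : IsZero ((TC P n).X i) := by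
  rcases hi with hi | hi
  · exact (TC P n).isZero_of_isStrictlyGE _ i hi
  · exact (TC P n).isZero_of_isStrictlyLE 0 i hi

lemma TC_cases (i : ℤ) : (i < -(n : ℤ) ∨ 0 < i) ∨ ∃ k : ℕ, k ≤ n ∧ i = -(k : ℤ) := by
  by_cases h : i < -(n : ℤ) ∨ 0 < i
  · exact Or.inl h
  · exact Or.inr ⟨i.natAbs, by lia, by lia⟩

instance TC_projective (i : ℤ) : Projective ((TC P n).X i) := by
  rcases TC_cases n i with h | ⟨k, hk, hi⟩
  · exact (TC_isZero P n i h).projective
  · exact Projective.of_iso (TCX P n k hk i hi).symm inferInstance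

instance TC_isKProjective : (TC P n).IsKProjective :=
  CochainComplex.isKProjective_of_projective _ 0

lemma TC_finite (hP : ∀ i, Module.Finite Λ (P.complex.X i)) (i : ℤ) :
    Module.Finite Λ ((TC P n).X i) := by
  rcases TC_cases n i with h | ⟨k, hk, hi⟩
  · have := ModuleCat.subsingleton_of_isZero (TC_isZero P n i h)
    infer_instance
  · have := hP k
    exact Module.Finite.equiv (TCX P n k hk i hi).symm.toLinearEquiv

lemma TC_exactAt (j : ℤ) (h1 : -(n : ℤ) < j) (h2 : j < 0) : (TC P n).ExactAt j := by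
  obtain ⟨k, rfl⟩ : ∃ k : ℕ, j = -((k + 1 : ℕ) : ℤ) := ⟨j.natAbs - 1, by lia⟩
  have hkn : k + 2 ≤ n := by lia
  rw [HomologicalComplex.exactAt_iff' _ (-((k + 2 : ℕ) : ℤ)) _ (-(k : ℤ))
    (by simp; lia) (by simp)]
  have hex := P.complex_exactAt_succ k
  rw [HomologicalComplex.exactAt_iff' _ (k + 2) (k + 1) k (by simp) (by simp)] at hex
  refine ShortComplex.exact_of_iso ?_ hex
  refine ShortComplex.isoMk (TCX P n (k + 2) hkn _ rfl).symm (TCX P n (k + 1) (by lia) _ rfl).symm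
    (TCX P n k (by lia) _ rfl).symm ?_ ?_
  · dsimp
    rw [TC_d P n (k + 1) hkn (-((k : ℤ) + 2)) (-((k : ℤ) + 1)) (by push_cast; ring)
      (by push_cast; ring)]
    simp
  · dsimp
    rw [TC_d P n k (by lia) (-((k : ℤ) + 1)) (-(k : ℤ)) (by push_cast; ring) rfl]
    simp

variable [HasDerivedCategory.{w} (ModuleCat.{u} Λ)]

open DerivedCategory

lemma TC_gap (j : ℤ) (h1 : -(n : ℤ) < j) (h2 : j < 0) : IsZero (HH j (Q.obj (TC P n))) :=
  (TC_exactAt P n j h1 h2).isZero_homology.of_iso ((homologyFunctorFactors _ j).app _)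

lemma TC_hz_lt (N : ModuleCat.{u} Λ) (i : ℕ) (hi : 1 ≤ i) (hin : i + 1 ≤ n) :
    HZ (Q.obj (TC P n)) ((SF N)⟦(i : ℤ)⟧) ↔ Subsingleton (Abelian.Ext M N i) := by
  obtain ⟨k, rfl⟩ : ∃ k, i = k + 1 := ⟨i - 1, by lia⟩
  rw [hz_single_iff (TC P n) N ((k + 1 : ℕ) : ℤ) (-((k + 1 : ℕ) : ℤ)) (-((k + 1 + 1 : ℕ) : ℤ))
    (-(k : ℤ)) (by simp) (by push_cast; ring) (by push_cast; ring),
    TC_d P n (k + 1) hin _ _ rfl rfl, TC_d P n k (by lia) _ _ rfl rfl]
  constructor
  · intro h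
    refine subsingleton_of_forall_eq 0 fun α ↦ ?_
    obtain ⟨f, hf, rfl⟩ := P.extMk_surjective α (k + 1 + 1) rfl
    rw [P.extMk_eq_zero_iff f (k + 1 + 1) rfl hf k rfl]
    obtain ⟨g, hg⟩ := h ((TCX P n (k + 1) (by lia) _ rfl).hom ≫ f) (by simp [hf])
    refine ⟨(TCX P n k (by lia) _ rfl).inv ≫ g, ?_⟩
    rw [← cancel_epi (TCX P n (k + 1) (by lia) _ rfl).hom]
    simpa using hg
  · intro h f hf
    have hf' : P.complex.d (k + 1 + 1) (k + 1) ≫ (TCX P n (k + 1) (by lia) _ rfl).inv ≫ f = 0 := by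
      rw [← cancel_epi (TCX P n (k + 1 + 1) hin _ rfl).hom]
      simpa using hf
    have := (P.extMk_eq_zero_iff _ (k + 1 + 1) rfl hf' k rfl).1 (Subsingleton.elim _ _)
    obtain ⟨g, hg⟩ := this
    exact ⟨(TCX P n k (by lia) _ rfl).hom ≫ g, by simp [hg]⟩

lemma TC_hz_eq (N : ModuleCat.{u} Λ) (k : ℕ) :
    HZ (Q.obj (TC P (k + 1))) ((SF N)⟦((k + 1 : ℕ) : ℤ)⟧) ↔
      ∀ f : P.complex.X (k + 1) ⟶ N, ∃ g : P.complex.X k ⟶ N, P.complex.d (k + 1) k ≫ g = f := by
  rw [hz_single_iff (TC P (k + 1)) N ((k + 1 : ℕ) : ℤ) (-((k + 1 : ℕ) : ℤ))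
    (-((k + 1 + 1 : ℕ) : ℤ))
    (-(k : ℤ)) (by simp) (by push_cast; ring) (by push_cast; ring),
    TC_d P (k + 1) k (by lia) _ _ rfl rfl]
  constructor
  · intro h f
    obtain ⟨g, hg⟩ := h ((TCX P (k + 1) (k + 1) (by lia) _ rfl).hom ≫ f)
      ((TC_isZero P (k + 1) _ (Or.inl (by push_cast; lia))).eq_of_src _ _)
    refine ⟨(TCX P (k + 1) k (by lia) _ rfl).inv ≫ g, ?_⟩
    rw [← cancel_epi (TCX P (k + 1) (k + 1) (by lia) _ rfl).hom]
    simpa using hg
  · intro h f _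
    obtain ⟨g, hg⟩ := h ((TCX P (k + 1) (k + 1) (by lia) _ rfl).inv ≫ f)
    exact ⟨(TCX P (k + 1) k (by lia) _ rfl).hom ≫ g, by simp [hg]⟩

lemma TC_hz_gt (N : ModuleCat.{u} Λ) (i : ℤ) (hi : (n : ℤ) < i) :
    HZ (Q.obj (TC P n)) ((SF N)⟦i⟧) := by
  have := TStructure.t.isLE_shift (SF N) 0 i (-i) (by lia)
  exact hz_of_isLE (TC P n) (-(n : ℤ)) _ (TStructure.t.isLE_of_le _ (-i) _ (by lia))

end Trunc

end Pool.Agent.TauNTilting
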