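import Mathlib
import Pool.Agent.Lib.TauNTilting.Defs
import Pool.Agent.Lib.TauNTilting.Truncation
import Pool.Agent.Lib.TauNTilting.Cogenerator

open CategoryTheory Limits

universe u

namespace Pool.Agent.TauNTilting

section ARproof

variable {R : Type u} [CommRing R] {Λ : Type u} [Ring Λ] [Algebra R Λ]
  {P₁ P₀ N J : Type u} [AddCommGroup P₁] [Module Λ P₁] [AddCommGroup P₀] [Module Λ P₀]
  [AddCommGroup N] [Module Λ N] [AddCommGroup J] [Module R J]

/-- The transpose of the cokernel of `d`, in reducible form. -/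
abbrev TransposeAux (d : P₁ →ₗ[Λ] P₀) : Type u := (P₁ →ₗ[Λ] Λ) ⧸ LinearMap.range (dualMap d)

omit [Algebra R Λ] in
/-- The `Λ`-action on the dual. -/
lemma dual_smul_apply {T : Type u} [AddCommGroup T] [Module R T]
    [Module Λᵐᵒᵖ T] [SMulCommClass R Λᵐᵒᵖ T] (a : Λ) (φ : DualModule R J T) (t : T) :
    (a • φ) t = φ (MulOpposite.op a • t) := rfl

lemma dual_ext {T : Type u} [AddCommGroup T] [Module R T] {φ ψ : DualModule R J T}
    (h : ∀ t, φ t = ψ t) : φ = ψ := LinearMap.ext h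

lemma dual_sum {T : Type u} [AddCommGroup T] [Module R T] {ι : Type*} (s : Finset ι)
    (φ : ι → DualModule R J T) (t : T) : (∑ k ∈ s, φ k) t = ∑ k ∈ s, φ k t :=
  LinearMap.sum_apply _ _ _

lemma dual_map_sum {T : Type u} [AddCommGroup T] [Module R T] {ι : Type*} (s : Finset ι)
    (φ : DualModule R J T) (t : ι → T) : φ (∑ k ∈ s, t k) = ∑ k ∈ s, φ (t k) :=
  map_sum (show T →ₗ[R] J from φ) _ _

/-- Finite dual bases. -/
lemma exists_dual_basis (P : Type u) [AddCommGroup P] [Module Λ P] [Module.Finite Λ P]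
    [Module.Projective Λ P] :
    ∃ (m : ℕ) (e : Fin m → P) (g : Fin m → (P →ₗ[Λ] Λ)), ∀ p, ∑ k, g k p • e k = p := by
  obtain ⟨m, f, s, -, -, hfs⟩ := Module.Finite.exists_comp_eq_id_of_projective Λ P
  refine ⟨m, fun k ↦ f (Pi.single k 1), fun k ↦ LinearMap.proj k ∘ₗ s, fun p ↦ ?_⟩
  have h1 : f (s p) = p := LinearMap.congr_fun hfs p
  have h2 : f (s p) = ∑ k, s p k • f (Pi.single k 1) := by
    conv_lhs => rw [← Finset.univ_sum_single (s p), map_sum]
    refine Finset.sum_congr rfl fun k _ ↦ ?_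
    rw [← map_smul, ← Pi.single_smul, smul_eq_mul, mul_one]
  exact h2.symm.trans h1

lemma map_eq_sum {P : Type u} [AddCommGroup P] [Module Λ P] {m : ℕ} {e : Fin m → P}
    {g : Fin m → (P →ₗ[Λ] Λ)} (h : ∀ p, ∑ k, g k p • e k = p) (f : P →ₗ[Λ] N) (p : P) :
    f p = ∑ k, g k p • f (e k) := by
  conv_lhs => rw [← h p, map_sum]
  simp only [map_smul]

lemma dual_eq_sum {P : Type u} [AddCommGroup P] [Module Λ P] {m : ℕ} {e : Fin m → P}
    {g : Fin m → (P →ₗ[Λ] Λ)} (h : ∀ p, ∑ k, g k p • e k = p) (f : P →ₗ[Λ] Λ) :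
    f = ∑ k, MulOpposite.op (f (e k)) • g k := by
  ext p
  rw [map_eq_sum h f p]
  simp

lemma mk_eq_sum {P : Type u} [AddCommGroup P] [Module Λ P] {m : ℕ} {e : Fin m → P}
    {g : Fin m → (P →ₗ[Λ] Λ)} (h : ∀ p, ∑ k, g k p • e k = p) (f : P →ₗ[Λ] Λ)
    (S : Submodule Λᵐᵒᵖ (P →ₗ[Λ] Λ)) :
    (Submodule.Quotient.mk f : (P →ₗ[Λ] Λ) ⧸ S) =
      ∑ k, MulOpposite.op (f (e k)) • (Submodule.Quotient.mk (g k) : (P →ₗ[Λ] Λ) ⧸ S) := by
  have h1 : S.mkQ f = ∑ k, MulOpposite.op (f (e k)) • S.mkQ (g k) := by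
    conv_lhs => rw [dual_eq_sum h f, map_sum]
    simp only [map_smul]
  exact h1

/-- For a map `d : P₁ → P₀` of finitely generated projective modules, there is no nonzero morphism
from `N` to the dual of the transpose of `coker d` if and only if `Hom(d, N)` is surjective. -/
theorem hom_dual_transposeAux_iff [Module.Finite Λ P₁] [Module.Projective Λ P₁]
    [Module.Finite Λ P₀] [Module.Projective Λ P₀] (d : P₁ →ₗ[Λ] P₀)
    (hJ : ∀ (Q : Type u) [AddCommGroup Q] [Module R Q] (q : Q), q ≠ 0 → ∃ B : Q →ₗ[R] J, B q ≠ 0) :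
    (∀ ψ : N →ₗ[Λ] DualModule R J (TransposeAux d), ψ = 0) ↔
      ∀ f : P₁ →ₗ[Λ] N, ∃ g : P₀ →ₗ[Λ] N, g ∘ₗ d = f := by
  obtain ⟨m, e, b, hb⟩ := exists_dual_basis (Λ := Λ) P₁
  obtain ⟨m', e', b', hb'⟩ := exists_dual_basis (Λ := Λ) P₀
  constructor
  · intro h f₀
    by_contra hf₀
    let _ : Module R N := Module.compHom N (algebraMap R Λ)
    have _ : IsScalarTower R Λ N := ⟨fun r a x ↦ by
      rw [Algebra.smul_def, mul_smul]; rfl⟩
    have _ : SMulCommClass Λ R N := IsScalarTower.to_smulCommClass'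
    -- precomposition with `d`
    let c : (P₀ →ₗ[Λ] N) →ₗ[R] (P₁ →ₗ[Λ] N) :=
      { toFun := fun g ↦ g ∘ₗ d
        map_add' := fun _ _ ↦ rfl
        map_smul' := fun _ _ ↦ rfl }
    obtain ⟨B, hB⟩ := hJ ((P₁ →ₗ[Λ] N) ⧸ LinearMap.range c) (Submodule.Quotient.mk f₀) (by
      rw [Ne, Submodule.Quotient.mk_eq_zero]
      exact hf₀)
    -- the evaluation pairing
    let ev (x : N) : (P₁ →ₗ[Λ] Λ) →ₗ[R] (P₁ →ₗ[Λ] N) :=
      { toFun := fun g ↦ LinearMap.toSpanSingleton Λ N x ∘ₗ g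
        map_add' := fun g g' ↦ by
          ext p
          simp [add_smul]
        map_smul' := fun r g ↦ by
          ext p
          simp }
    have hker (x : N) : (LinearMap.range (dualMap d)).restrictScalars R ≤
        LinearMap.ker (B ∘ₗ (LinearMap.range c).mkQ ∘ₗ ev x) := by
      rintro _ ⟨g, rfl⟩
      rw [LinearMap.mem_ker, LinearMap.comp_apply, LinearMap.comp_apply]
      have : (LinearMap.range c).mkQ (ev x (dualMap d g)) = 0 := by
        rw [Submodule.mkQ_apply, Submodule.Quotient.mk_eq_zero]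
        exact ⟨LinearMap.toSpanSingleton Λ N x ∘ₗ g, rfl⟩
      rw [this, map_zero]
    let ψ₀ (x : N) : TransposeAux d →ₗ[R] J :=
      (Submodule.liftQ _ _ (hker x)) ∘ₗ
        (Submodule.Quotient.restrictScalarsEquiv R (LinearMap.range (dualMap d))).symm.toLinearMap
    have hψ₀ (x : N) (g : P₁ →ₗ[Λ] Λ) : ψ₀ x (Submodule.Quotient.mk g) =
        B (Submodule.Quotient.mk (LinearMap.toSpanSingleton Λ N x ∘ₗ g)) := rfl
    let ψ : N →ₗ[Λ] DualModule R J (TransposeAux d) :=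
      { toFun := ψ₀
        map_add' := fun x y ↦ dual_ext fun t ↦ by
          obtain ⟨g, rfl⟩ := Submodule.Quotient.mk_surjective _ t
          change ψ₀ (x + y) (Submodule.Quotient.mk g) =
            ψ₀ x (Submodule.Quotient.mk g) + ψ₀ y (Submodule.Quotient.mk g)
          rw [hψ₀, hψ₀, hψ₀, ← map_add, ← Submodule.Quotient.mk_add]
          congr 2
          ext p
          simp
        map_smul' := fun a x ↦ dual_ext fun t ↦ by
          obtain ⟨g, rfl⟩ := Submodule.Quotient.mk_surjective _ t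
          change ψ₀ (a • x) (Submodule.Quotient.mk g) =
            ψ₀ x (MulOpposite.op a • Submodule.Quotient.mk g)
          rw [← Submodule.Quotient.mk_smul, hψ₀, hψ₀]
          congr 2
          ext p
          simp [mul_smul] }
    have hψ := h ψ
    apply hB
    have h3 : f₀ = ∑ l, LinearMap.toSpanSingleton Λ N (f₀ (e l)) ∘ₗ b l := by
      ext p
      rw [map_eq_sum hb f₀ p]
      simp
    have h4 : (LinearMap.range c).mkQ f₀ =
        ∑ l, (LinearMap.range c).mkQ (LinearMap.toSpanSingleton Λ N (f₀ (e l)) ∘ₗ b l) := by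
      conv_lhs => rw [h3, map_sum]
    change B ((LinearMap.range c).mkQ f₀) = 0
    rw [h4, map_sum]
    refine Finset.sum_eq_zero fun l _ ↦ ?_
    have h5 : ψ (f₀ (e l)) (Submodule.Quotient.mk (b l)) = 0 := by rw [hψ]; rfl
    exact h5
  · intro h ψ
    refine LinearMap.ext fun x ↦ dual_ext fun t ↦ ?_
    obtain ⟨g, rfl⟩ := Submodule.Quotient.mk_surjective _ t
    obtain ⟨h₀, hh₀⟩ := h (LinearMap.toSpanSingleton Λ N x ∘ₗ g)
    have h1 : ∀ l, g (e l) • x = ∑ k, b' k (d (e l)) • h₀ (e' k) := fun l ↦ by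
      rw [← map_eq_sum hb' h₀ (d (e l))]
      exact (LinearMap.congr_fun hh₀ (e l)).symm
    have h2 : ∀ k, (Submodule.Quotient.mk (b' k ∘ₗ d) : TransposeAux d) = 0 := fun k ↦ by
      rw [Submodule.Quotient.mk_eq_zero]
      exact ⟨b' k, rfl⟩
    calc ψ x (Submodule.Quotient.mk g)
        = ∑ l, (g (e l) • ψ x) (Submodule.Quotient.mk (b l)) := by
          rw [mk_eq_sum hb g, dual_map_sum]
          rfl
      _ = ∑ l, ψ (g (e l) • x) (Submodule.Quotient.mk (b l)) := by simp only [map_smul]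
      _ = ∑ l, ∑ k, ψ (h₀ (e' k)) (MulOpposite.op (b' k (d (e l))) • Submodule.Quotient.mk (b l)) := by
          refine Finset.sum_congr rfl fun l _ ↦ ?_
          rw [h1 l, map_sum, dual_sum]
          refine Finset.sum_congr rfl fun k _ ↦ ?_
          rw [map_smul, dual_smul_apply]
      _ = ∑ k, ψ (h₀ (e' k)) (Submodule.Quotient.mk (b' k ∘ₗ d)) := by
          rw [Finset.sum_comm]
          refine Finset.sum_congr rfl fun k _ ↦ ?_
          rw [mk_eq_sum hb (b' k ∘ₗ d), dual_map_sum]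
          rfl
      _ = 0 := by
          refine Finset.sum_eq_zero fun k _ ↦ ?_
          rw [h2 k]
          exact map_zero (show TransposeAux d →ₗ[R] J from ψ (h₀ (e' k)))

/-- For a morphism `d : P₁ → P₀` of finitely generated projective modules, there is no nonzero
morphism from `N` to `D Tr (coker d)` if and only if each morphism `P₁ → N` factors through
`d`. -/
theorem hom_dual_transpose_iff {P₁ P₀ N : ModuleCat.{u} Λ} [Module.Finite Λ P₁]
    [Module.Projective Λ P₁] [Module.Finite Λ P₀] [Module.Projective Λ P₀] (d : P₁ ⟶ P₀)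
    (hJ : ∀ (Q : Type u) [AddCommGroup Q] [Module R Q] (q : Q), q ≠ 0 → ∃ B : Q →ₗ[R] J, B q ≠ 0) :
    (∀ ψ : N ⟶ dualTranspose R J d, ψ = 0) ↔
      ∀ f : P₁ ⟶ N, ∃ g : P₀ ⟶ N, d ≫ g = f := by
  have h := hom_dual_transposeAux_iff (R := R) (N := N) (J := J) d.hom hJ
  constructor
  · intro h0 f
    obtain ⟨g, hg⟩ := h.1 (fun ψ ↦ congrArg ModuleCat.Hom.hom
      (h0 (ModuleCat.ofHom (Y := DualModule R J (Transpose d.hom)) ψ))) f.hom
    exact ⟨ModuleCat.ofHom g, ModuleCat.hom_ext hg⟩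
  · intro h0 ψ
    exact ModuleCat.hom_ext (h.2 (fun f ↦ by
      obtain ⟨g, hg⟩ := h0 (ModuleCat.ofHom f)
      exact ⟨g.hom, congrArg ModuleCat.Hom.hom hg⟩) ψ.hom)

end ARproof

section Assembly

open DerivedCategory Triangulated

variable {Λ : Type u} [Ring Λ]

lemma addData_of_isAdd {C : Type*} [Category C] [Preadditive C] {X Y : C} (h : IsAdd X Y) :
    AddData X Y := by
  obtain ⟨r, B, ⟨hB⟩, ⟨ρ⟩⟩ := h
  refine ⟨r, fun k ↦ ρ.i ≫ B.π k, fun k ↦ B.ι k ≫ ρ.r, ?_⟩
  have h1 := IsBilimit.total hB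
  calc ∑ k, (ρ.i ≫ B.π k) ≫ B.ι k ≫ ρ.r = ρ.i ≫ (∑ k, B.π k ≫ B.ι k) ≫ ρ.r := by
        simp [Preadditive.sum_comp, Preadditive.comp_sum]
    _ = 𝟙 Y := by rw [h1]; simp

lemma addData_map {C D : Type*} [Category C] [Preadditive C] [Category D] [Preadditive D]
    (F : C ⥤ D) [F.Additive] {X Y : C} (h : AddData X Y) : AddData (F.obj X) (F.obj Y) := by
  obtain ⟨r, a, b, hab⟩ := h
  refine ⟨r, fun k ↦ F.map (a k), fun k ↦ F.map (b k), ?_⟩
  rw [← F.map_id, ← hab, F.map_sum]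
  simp

lemma addData_iso {C : Type*} [Category C] [Preadditive C] {X X' Y : C} (e : X ≅ X')
    (h : AddData X Y) : AddData X' Y := by
  obtain ⟨r, a, b, hab⟩ := h
  refine ⟨r, fun k ↦ a k ≫ e.hom, fun k ↦ e.inv ≫ b k, ?_⟩
  rw [← hab]
  simp

/-- A silting truncated complex has the properties used in the construction of preenvelopes. -/
lemma pData_of_isSilting (R : Type u) [CommRing R] [IsNoetherianRing R] [Algebra R Λ]
    [Module.Finite R Λ] [HasDerivedCategory (ModuleCat.{u} Λ)] {M : ModuleCat.{u} Λ}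
    (P : ProjectiveResolution M) (n : ℕ) (hP : ∀ i, Module.Finite Λ (P.complex.X i))
    (hs : IsSilting ((HomotopyCategory.quotient _ _).obj (truncatedComplex P n))) :
    PData R n (Q.obj (TC P n)) := by
  have hN : IsNoetherianRing Λ := IsNoetherianRing.of_finite R Λ
  have hfin := TC_finite P n hP
  have hnoeth : ∀ i, IsNoetherian Λ ((TC P n).X i) := fun i ↦ by
    have := hfin i
    infer_instance
  let t : TStructure (DerivedCategory (ModuleCat.{u} Λ)) := TStructure.t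
  have hle : (Q.obj (TC P n)).IsLE 0 := inferInstance
  have hpre : ∀ i : ℤ, 0 < i → HZ (Q.obj (TC P n)) ((Q.obj (TC P n))⟦i⟧) := fun i hi ↦
    hz_shift_of_homotopy _ _ i (hs.hom_eq_zero i hi)
  have hiso : Qh.obj ((HomotopyCategory.quotient _ _).obj (TC P n)) ≅ Q.obj (TC P n) :=
    (quotientCompQhIso _).app _
  have hSS : SS t (Q.obj (TC P n)) (SF (ModuleCat.of Λ Λ)) := by
    have h1 := hs.generates ((SS t (Q.obj (TC P n))).inverseImage Qh) inferInstance inferInstance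
      (fun Y hY ↦ SS_of_add t _ hle hpre
        (addData_iso hiso (addData_map Qh (addData_of_isAdd hY))))
      ((HomotopyCategory.quotient _ _).obj
        ((CochainComplex.singleFunctor (ModuleCat.{u} Λ) 0).obj (ModuleCat.of Λ Λ))) ?_
    · have e : Qh.obj ((HomotopyCategory.quotient _ _).obj
          ((CochainComplex.singleFunctor (ModuleCat.{u} Λ) 0).obj (ModuleCat.of Λ Λ))) ≅
          SF (ModuleCat.of Λ Λ) :=
        (quotientCompQhIso _).app _ ≪≫ ((singleFunctorIsoCompQ _ 0).app _).symm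
      exact ObjectProperty.prop_of_iso _ e h1
    · refine ⟨_, fun i ↦ ?_, ⟨0, 0, fun i hi ↦ ?_⟩, ⟨Iso.refl _⟩⟩
      · by_cases hi : i = 0
        · subst hi
          let e := (HomologicalComplex.singleObjXSelf (.up ℤ) 0 (ModuleCat.of Λ Λ)).toLinearEquiv
          exact ⟨Module.Finite.equiv e.symm, Module.Projective.of_equiv e.symm⟩
        · have h0 := HomologicalComplex.isZero_single_obj_X (.up ℤ) 0 (ModuleCat.of Λ Λ) i hi
          have := ModuleCat.subsingleton_of_isZero h0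
          exact ⟨inferInstanceAs (Module.Finite Λ
            (((HomologicalComplex.single _ (.up ℤ) 0).obj (ModuleCat.of Λ Λ)).X i)),
            inferInstanceAs (Module.Projective Λ
              (((HomologicalComplex.single _ (.up ℤ) 0).obj (ModuleCat.of Λ Λ)).X i))⟩
      · exact HomologicalComplex.isZero_single_obj_X (.up ℤ) 0 (ModuleCat.of Λ Λ) i (by lia)
  refine ⟨hle, fun Y hY ↦ hz_of_isLE (TC P n) (-(n : ℤ)) Y hY, hpre, TC_gap P n,
    FGc_Q _ hnoeth, ?_, fin_all R n (TC P n) hfin⟩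
  intro X hX
  have hLU := LU_of_SS t (Q.obj (TC P n)) (L := SF (ModuleCat.of Λ Λ)) ?_ hSS
  · exact isLE_of_hz_ring X fun i hi ↦ hLU X hX i hi
  · intro B hB
    obtain ⟨L, hL, ⟨e⟩⟩ := exists_iso_Q_obj_of_isLE B (-1)
    suffices h : HZ (SF (ModuleCat.of Λ Λ)) (Q.obj L) from h.of_iso (Iso.refl _) e.symm
    refine HZ.of_iso (X := Q.obj ((CochainComplex.singleFunctor _ 0).obj (ModuleCat.of Λ Λ)))
      (fun f ↦ ?_) ((singleFunctorIsoCompQ _ 0).app _).symm (Iso.refl _)
    exact from_singleFunctor_obj_eq_zero_of_projective f (-1) (by norm_num)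

/-- The `τ_n`-perpendicular class consists of the finitely generated modules `N` such that
`Hom(T, N[i]) = 0` for all `i > 0`, where `T` is the truncated complex. -/
lemma tauPerp_iff (R : Type u) [CommRing R] [IsArtinianRing R] [Algebra R Λ]
    [Module.Finite R Λ] [HasDerivedCategory (ModuleCat.{u} Λ)] {M : ModuleCat.{u} Λ}
    (J : Type u) [AddCommGroup J] [Module R J] (ι : (R ⧸ Ring.jacobson R) →ₗ[R] J)
    (hJ : IsInjectiveEnvelope R (R ⧸ Ring.jacobson R) J ι)
    (P : ProjectiveResolution M) (n : ℕ) (hn : 1 ≤ n)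
    (hP : ∀ i, Module.Finite Λ (P.complex.X i)) (N : ModuleCat.{u} Λ) :
    TauPerp R J P n N ↔ Module.Finite Λ N ∧ U (Q.obj (TC P n)) (SF N) := by
  obtain ⟨k, rfl⟩ : ∃ k, n = k + 1 := ⟨n - 1, by lia⟩
  have h1 : (∀ f : N ⟶ TauN R J P (k + 1), f = 0) ↔
      HZ (Q.obj (TC P (k + 1))) ((SF N)⟦((k + 1 : ℕ) : ℤ)⟧) := by
    rw [TC_hz_eq]
    have := hP (k + 1)
    have := hP k
    have : Module.Projective Λ (P.complex.X (k + 1)) :=
      (IsProjective.iff_projective _).2 (P.projective (k + 1))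
    have : Module.Projective Λ (P.complex.X k) :=
      (IsProjective.iff_projective _).2 (P.projective k)
    exact hom_dual_transpose_iff (R := R) (N := N) (J := J) (P.complex.d (k + 1) k)
      (fun Q _ _ q hq ↦ exists_functional R J hJ.injective ι hJ.embedding q hq)
  constructor
  · rintro ⟨a, b, c⟩
    refine ⟨a, fun i hi ↦ ?_⟩
    rcases lt_trichotomy i ((k + 1 : ℕ) : ℤ) with hlt | heq | hgt
    · obtain ⟨i', rfl⟩ : ∃ i' : ℕ, i = (i' : ℤ) := ⟨i.natAbs, by lia⟩
      exact (TC_hz_lt P (k + 1) N i' (by lia) (by lia)).2 (c i' (by lia) (by lia))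
    · rw [heq]
      exact h1.1 b
    · exact TC_hz_gt P (k + 1) N i hgt
  · rintro ⟨a, b⟩
    refine ⟨a, h1.2 (b _ (by lia)), fun i hi hi' ↦ ?_⟩
    exact (TC_hz_lt P (k + 1) N i hi (by lia)).1 (b _ (by lia))

end Assembly

end Pool.Agent.TauNTilting
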